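import Pool.Agent.T9h94.CZ.Last

set_option autoImplicit false

namespace Pool.Agent.T9h94.CZ

open Pool.Agent.H67R3.CondDefs Pool.Agent.H67R3.Cond

theorem sFinite : SFinite := by
  intro P _ _
  refine ⟨inferInstance, ?_⟩
  intro α _ S
  classical
  have h : ∀ x : α → P, ∃ w : FreeGroup α, (w ∈ S ∧ FreeGroup.lift x w ≠ 1) ∨
      (w = 1 ∧ ∀ w ∈ S, FreeGroup.lift x w = 1) := by
    intro x
    by_cases hx : ∀ w ∈ S, FreeGroup.lift x w = 1
    · exact ⟨1, Or.inr ⟨rfl, hx⟩⟩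
    · push Not at hx
      obtain ⟨w, h1, h2⟩ := hx
      exact ⟨w, Or.inl ⟨h1, h2⟩⟩
  choose f hf using h
  refine ⟨Set.range f ∩ S, (Set.finite_range f).subset Set.inter_subset_left,
    Set.inter_subset_right, ?_⟩
  intro x hx w hw
  rcases hf x with ⟨h1, h2⟩ | ⟨h1, h2⟩
  · exact absurd (hx (f x) ⟨⟨x, rfl⟩, h1⟩) h2
  · exact h2 w hw

theorem sDirInv : SDirInv := by
  intro α M P _ _ Z Z' hZ hZ' hsurj χ χ' ⟨h1, A, hA, hc⟩ hp
  refine ⟨?_, (A.comap (FreeGroup.lift Z')).map (FreeGroup.lift Z), ?_, ?_⟩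
  · intro p
    obtain ⟨m, rfl⟩ := h1 p
    obtain ⟨w, rfl⟩ := hZ' m
    exact ⟨FreeGroup.lift Z w, hp w⟩
  · rw [eq_top_iff]
    intro p _
    have hp' : p ∈ A.map χ := by rw [hA]; trivial
    obtain ⟨a, ha, rfl⟩ := hp'
    obtain ⟨w, rfl⟩ := hZ' a
    exact ⟨FreeGroup.lift Z w, ⟨w, ha, rfl⟩, hp w⟩
  · rintro _ ⟨w, hw, rfl⟩ k hk ψ
    obtain ⟨v, rfl⟩ := hZ k
    obtain ⟨ψ₀, hψ⟩ := hsurj ψ
    have hk' : FreeGroup.lift Z' v ∈ χ.ker := by
      rw [MonoidHom.mem_ker, ← hp v]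
      exact hk
    have := hc (FreeGroup.lift Z' w) hw (FreeGroup.lift Z' v) hk' ψ₀
    rw [← map_mul, ← map_mul, hψ, hψ, map_mul (FreeGroup.lift Z'), map_mul (FreeGroup.lift Z')]
    exact this

/-- a bounded increasing union argument: a finite subset of an increasing union is in one term -/
theorem finite_in_union {ι : Type} (R : ℕ → Set ι) (hR : ∀ k, R k ⊆ R (k + 1)) (T : Set ι)
    (hT : T.Finite) (h : T ⊆ ⋃ k, R k) : ∃ k, T ⊆ R k := by
  have hmono : Monotone R := monotone_nat_of_le_succ hR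
  induction T, hT using Set.Finite.induction_on with
  | empty => exact ⟨0, Set.empty_subset _⟩
  | @insert a s _ _ ih =>
    obtain ⟨k, hk⟩ := ih ((Set.subset_insert a s).trans h)
    obtain ⟨l, hl⟩ := Set.mem_iUnion.1 (h (Set.mem_insert a s))
    refine ⟨max k l, ?_⟩
    intro x hx
    rcases hx with rfl | hx
    · exact hmono (le_max_right k l) hl
    · exact hmono (le_max_left k l) (hk hx)

theorem sHopf : SHopf := by
  intro P _ hfg hE η hη
  obtain ⟨n, Y, -, hY⟩ := @exists_gen P _ hfg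
  let E : ℕ → P →* P := fun k => Nat.rec (MonoidHom.id P) (fun _ f => η.comp f) k
  have hE0 : E 0 = MonoidHom.id P := rfl
  have hE1 : ∀ k, E (k + 1) = η.comp (E k) := fun _ => rfl
  have hEs : ∀ k, Function.Surjective (E k) := by
    intro k
    induction k with
    | zero => exact Function.surjective_id
    | succ k ih => rw [hE1]; exact hη.comp ih
  let R : ℕ → Set (FreeGroup (Fin n)) := fun k => {w | E k (FreeGroup.lift Y w) = 1}
  have hR : ∀ k, R k ⊆ R (k + 1) := by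
    intro k w hw
    show E (k + 1) _ = 1
    rw [hE1, MonoidHom.comp_apply, show E k (FreeGroup.lift Y w) = 1 from hw, map_one]
  obtain ⟨T, hT1, hT2, hT3⟩ := hE (Fin n) (⋃ k, R k)
  obtain ⟨k, hk⟩ := finite_in_union R hR T hT1 hT2
  have hl : ∀ w, FreeGroup.lift (fun j => E k (Y j)) w = E k (FreeGroup.lift Y w) := by
    intro w
    have : FreeGroup.lift (fun j => E k (Y j)) = (E k).comp (FreeGroup.lift Y) := by
      apply FreeGroup.ext_hom
      intro i
      simp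
    rw [this]; rfl
  have h2 := hT3 (fun j => E k (Y j)) (by
    intro w hw
    rw [hl]
    exact hk hw)
  rw [injective_iff_map_eq_one]
  intro p hp
  obtain ⟨q, rfl⟩ := hEs k p
  obtain ⟨w, rfl⟩ := hY q
  have h3 := h2 w (Set.mem_iUnion.2 ⟨k + 1, by
    show E (k + 1) _ = 1
    rw [hE1]; exact hp⟩)
  rw [hl] at h3
  exact h3

end Pool.Agent.T9h94.CZ
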