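import Pool.Agent.T9h94.CZ.Fin
import Pool.Agent.T9h94.CZ.Small
import Pool.Agent.T9h66.CZ.Pull

set_option autoImplicit false

namespace Pool.Agent.T9h94.CZ

open Pool.Agent.H67R3.CondDefs Pool.Agent.H67R3.Cond

/-- finitely many homomorphisms to a finite group -/
theorem finite_homs {α M P : Type} [Finite α] [Group M] [Group P] [Finite P] (Z : α → M)
    (hZ : Gen Z) : Finite (M →* P) := by
  refine Finite.of_injective (fun χ : M →* P => fun j : α => χ (Z j)) ?_
  intro χ χ' h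
  have h1 : χ.comp (FreeGroup.lift Z) = χ'.comp (FreeGroup.lift Z) := by
    ext j
    simpa using congrFun h j
  ext x
  obtain ⟨w, rfl⟩ := hZ x
  exact DFunLike.congr_fun h1 w

/-- the conclusion of the semigroup principle for the kernel of one homomorphism -/
theorem fix_of (hInv : SInv) {α M P : Type} [Finite α] [Group M] [Group P] (hE : EqN P)
    (Z : α → M) (hZ : Gen Z) (hAcc : Acc Z) (D : (M →* P) → Prop)
    (hfin : {K : Subgroup M | ∃ χ : M →* P, D χ ∧ χ.ker = K}.Finite)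
    (hD : ∀ Z' : α → M, Gen Z' → (∀ ψ' : M →* P, ∃ ψ : M →* P, Pull Z Z' ψ ψ') →
      ∀ χ χ' : M →* P, D χ → Pull Z Z' χ χ' → D χ')
    (χ : M →* P) (hχ : D χ) (B : Set (FreeGroup α)) (hB : B.Finite) :
    ∃ Z' : α → M, Gen Z' ∧ Close B Z Z' ∧ Differ Z Z' ∧
      ∀ w, FreeGroup.lift Z w ∈ χ.ker ↔ FreeGroup.lift Z' w ∈ χ.ker := by
  obtain ⟨B₀, hB₀, hP⟩ := Pool.Agent.T9h66.CZ.sPull α M P Z hZ hE
  obtain ⟨Z', h1, h2, h3, h4⟩ := hInv α M Z hZ hAcc _ hfin ⟨B₀, hB₀, by
    rintro Z' hZ' hC K ⟨ψ, hψ, rfl⟩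
    obtain ⟨hp1, hp2⟩ := hP Z' hZ' hC
    obtain ⟨ψ', hψ'⟩ := hp1 ψ
    refine ⟨ψ'.ker, ⟨ψ', hD Z' hZ' hp2 ψ ψ' hψ hψ', rfl⟩, ?_⟩
    intro w
    rw [MonoidHom.mem_ker, MonoidHom.mem_ker, hψ' w]⟩ B hB
  exact ⟨Z', h1, h2, h3, h4 _ ⟨χ, hχ, rfl⟩⟩

/-- finite groups are neutral -/
theorem neutral_finite (hInv : SInv) (P : Type) [Group P] [Finite P] : Neutral P := by
  intro G _
  refine ⟨?_, fun h => condensed_prod_right inferInstance h⟩
  obtain ⟨hfp, hE⟩ := sFinite P
  refine sLast G P hfp (sHopf P inferInstance hE) ?_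
  intro α _ Z hZ hAcc B hB
  have := finite_homs (P := P) Z hZ
  refine fix_of hInv hE Z hZ hAcc (fun _ => True) ?_ (fun _ _ _ _ _ _ _ => trivial)
    (MonoidHom.snd G P) trivial B hB
  exact (Set.finite_range (fun χ : G × P →* P => χ.ker)).subset (by
    rintro K ⟨χ, -, rfl⟩
    exact ⟨χ, rfl⟩)

theorem fg_of_fp {P : Type} [Group P] (h : Group.IsFinitelyPresented P) : Group.FG P := by
  obtain ⟨n, φ, hφ, -⟩ := h.out
  exact Group.fg_of_surjective hφ

/-- finitely presented equationally Noetherian groups with `Prim` are neutral -/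
theorem neutral_prim (hInv : SInv) (hG : SFinDir) (P : Type) [Group P]
    (hfp : Group.IsFinitelyPresented P) (hE : EqN P) (hP : Prim P) : Neutral P := by
  intro G _
  have hfg := fg_of_fp hfp
  refine ⟨?_, fun h => condensed_prod_right hfg h⟩
  refine sLast G P hfp (sHopf P hfg hE) ?_
  intro α _ Z hZ hAcc B hB
  refine fix_of hInv hE Z hZ hAcc Dir (hG α (G × P) P Z hZ hE hfg hP) ?_
    (MonoidHom.snd G P) ?_ B hB
  · intro Z' hZ' hs χ χ' hχ hp
    exact sDirInv α (G × P) P Z Z' hZ hZ' hs χ χ' hχ hp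
  · refine ⟨Prod.snd_surjective, (MonoidHom.inr G P).range, ?_, ?_⟩
    · rw [eq_top_iff]
      intro p _
      exact ⟨(1, p), ⟨p, rfl⟩, rfl⟩
    · rintro _ ⟨p, rfl⟩ ⟨g, q⟩ hk ψ
      have hq : q = 1 := hk
      subst hq
      congr 1
      simp

/-- the integers are neutral -/
theorem neutral_int : Neutral (Multiplicative ℤ) := fun G _ => condensed_prod_iff sArith G

theorem Neutral.congr {P Q : Type} [Group P] [Group Q] (e : P ≃* Q) (h : Neutral P) :
    Neutral Q := by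
  intro G _
  rw [← h G]
  exact ⟨condensed_congr (MulEquiv.prodCongr (MulEquiv.refl G) e.symm),
    condensed_congr (MulEquiv.prodCongr (MulEquiv.refl G) e)⟩

theorem Neutral.prod {P Q : Type} [Group P] [Group Q] (h1 : Neutral P) (h2 : Neutral Q) :
    Neutral (P × Q) := by
  intro G _
  rw [← h1 G, ← h2 (G × P)]
  exact ⟨condensed_congr (MulEquiv.prodAssoc (M := G) (N := P) (P := Q)).symm,
    condensed_congr (MulEquiv.prodAssoc (M := G) (N := P) (P := Q))⟩

/-- free groups are neutral -/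
theorem neutral_free (hInv : SInv) (hG : SFinDir) (k1 : SFreePrim) (k2 : SLinear)
    (k3 : SFreeLinear) (m : ℕ) : Neutral (FreeGroup (Fin m)) := by
  by_cases hm : m = 1
  · subst hm
    have : Unique (Fin 1) := inferInstance
    exact neutral_int.congr (FreeGroup.mulEquivIntOfUnique (α := Fin 1)).symm
  · obtain ⟨φ, hφ⟩ := k3 m
    exact neutral_prim hInv hG _ inferInstance (k2 _ ℚ 2 φ hφ) (k1 m hm)

theorem Neutral.cancel {P Q : Type} [Group P] [Group Q] (h1 : Neutral P) (h2 : Neutral Q)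
    {G H : Type} [Group G] [Group H] (e : G × P ≃* H × Q) : Condensed G ↔ Condensed H := by
  rw [← h1 G, ← h2 H]
  exact ⟨condensed_congr e, condensed_congr e.symm⟩

end Pool.Agent.T9h94.CZ
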