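import Pool.Agent.T9h94.CZ.Spec
import Pool.Agent.H67R3.Cond3

set_option autoImplicit false

namespace Pool.Agent.T9h94.CZ

open Pool.Agent.H67R3.CondDefs Pool.Agent.H67R3.Cond

/-! ### condensed groups in terms of generating tuples -/

theorem lift_of {α G : Type} [Group G] (π : FreeGroup α →* G) :
    FreeGroup.lift (fun i => π (FreeGroup.of i)) = π := by
  apply FreeGroup.ext_hom
  intro i
  simp

theorem aux1 {G : Type} [Group G] {n : ℕ} {X : Fin n → G} {B : Set (FreeGroup (Fin n))}
    (hcon : ¬ ∃ X' : Fin n → G, Gen X' ∧ Close B X X' ∧ Differ X X')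
    (N' : Subgroup (FreeGroup (Fin n))) (π' : FreeGroup (Fin n) →* G)
    (hπ' : Function.Surjective π') (hker' : π'.ker = N')
    (hW : ∀ w ∈ B, (w ∈ N' ↔ w ∈ (FreeGroup.lift X).ker)) : N' = (FreeGroup.lift X).ker := by
  by_contra hne
  apply hcon
  refine ⟨fun i => π' (FreeGroup.of i), ?_, ?_, ?_⟩
  · show Function.Surjective (FreeGroup.lift _)
    rw [lift_of]; exact hπ'
  · intro w hw
    have := hW w hw
    rw [← hker'] at this
    rw [lift_of]
    exact this
  · by_contra hd
    apply hne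
    have hd' : ∀ w, (FreeGroup.lift (fun i => π' (FreeGroup.of i)) w = 1 ↔
        FreeGroup.lift X w = 1) := by
      intro w
      by_contra h
      exact hd ⟨w, h⟩
    rw [← hker']
    ext w
    have := hd' w
    rw [lift_of] at this
    exact this

theorem aux2 {G : Type} [Group G] {n : ℕ} (N : Subgroup (FreeGroup (Fin n)))
    (π : FreeGroup (Fin n) →* G) (hπ : Function.Surjective π) (hker : π.ker = N)
    (h2 : ∀ X : Fin n → G, Gen X → Acc X) (W : Finset (FreeGroup (Fin n))) :
    ∃ X' : Fin n → G, Gen X' ∧ (∀ v ∈ W, (v ∈ (FreeGroup.lift X').ker ↔ v ∈ N)) ∧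
      (FreeGroup.lift X').ker ≠ N := by
  have hgen : Gen (fun i => π (FreeGroup.of i)) := by
    show Function.Surjective (FreeGroup.lift _)
    rw [lift_of]; exact hπ
  obtain ⟨X', hX1, hX2, w, hw⟩ := h2 _ hgen (W : Set _) W.finite_toSet
  refine ⟨X', hX1, ?_, ?_⟩
  · intro v hv
    have := hX2 v hv
    rw [lift_of] at this
    rw [← hker]
    exact this
  · intro heq
    apply hw
    rw [lift_of]
    rw [← hker] at heq
    have : w ∈ (FreeGroup.lift X').ker ↔ w ∈ π.ker := by rw [heq]
    exact this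

theorem condensed_iff (G : Type) [Group G] :
    Condensed G ↔ Group.FG G ∧ ∀ (n : ℕ) (X : Fin n → G), 0 < n → Gen X → Acc X := by
  constructor
  · rintro ⟨h1, h2⟩
    refine ⟨h1, ?_⟩
    intro n X hn hX B hB
    by_contra hcon
    let x : isoClass G := ⟨⟨⟨n, hn⟩, ⟨(FreeGroup.lift X).ker, MonoidHom.normal_ker _⟩⟩,
      ⟨FreeGroup.lift X, hX, rfl⟩⟩
    apply h2 x
    refine isolated_of x B hB ?_
    rintro N' ⟨π', hπ', hker'⟩ hW
    apply Subtype.ext
    exact aux1 hcon N'.1 π' hπ' hker' hW
  · rintro ⟨h1, h2⟩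
    refine ⟨h1, ?_⟩
    intro x
    apply not_isolated_of
    intro W
    obtain ⟨⟨n, N⟩, π, hπ, hker⟩ := x
    obtain ⟨X', hX1, hX2, hX3⟩ := aux2 N.1 π hπ hker (fun X hX => h2 n X n.2 hX) W
    refine ⟨⟨(FreeGroup.lift X').ker, MonoidHom.normal_ker _⟩, ⟨FreeGroup.lift X', hX1, rfl⟩,
      hX2, ?_⟩
    intro heq
    exact hX3 (congrArg Subtype.val heq)

/-! ### transfer between generating tuples -/

theorem lift_lift {α β G : Type} [Group G] (X : α → G) (W : β → FreeGroup α)
    (w : FreeGroup β) :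
    FreeGroup.lift (fun j => FreeGroup.lift X (W j)) w =
      FreeGroup.lift X (FreeGroup.lift W w) := by
  have : FreeGroup.lift (fun j => FreeGroup.lift X (W j)) =
      (FreeGroup.lift X).comp (FreeGroup.lift W) := by
    apply FreeGroup.ext_hom
    intro i
    simp
  rw [this]; rfl

theorem gen_of {α β G : Type} [Group G] {X : α → G} {Z : β → G} (hX : Gen X)
    (h : ∀ i, ∃ w, FreeGroup.lift Z w = X i) : Gen Z := by
  show Function.Surjective (FreeGroup.lift Z)
  choose V hV using h
  intro g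
  obtain ⟨w, rfl⟩ := hX g
  refine ⟨FreeGroup.lift V w, ?_⟩
  rw [← lift_lift]
  congr 1
  exact congrArg _ (funext hV)

theorem acc_transfer {α β G : Type} [Finite α] [Group G] (X : α → G) (Z : β → G) (hX : Gen X)
    (hZ : Gen Z) (h : Acc X) : Acc Z := by
  intro B hB
  choose W hW using fun j => hX (Z j)
  choose V hV using fun i => hZ (X i)
  have hW' : (fun j => FreeGroup.lift X (W j)) = Z := funext hW
  have hV' : (fun j => FreeGroup.lift Z (V j)) = X := funext hV
  obtain ⟨X', h1, h2, w, hw⟩ := h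
    ((FreeGroup.lift W) '' B ∪
      Set.range (fun i => (FreeGroup.of i)⁻¹ * FreeGroup.lift W (V i)))
    ((hB.image _).union (Set.finite_range _))
  have hX'V : ∀ i, FreeGroup.lift (fun j => FreeGroup.lift X' (W j)) (V i) = X' i := by
    intro i
    have h3 := (h2 ((FreeGroup.of i)⁻¹ * FreeGroup.lift W (V i)) (Or.inr ⟨i, rfl⟩)).2 (by
      rw [map_mul, map_inv, FreeGroup.lift_apply_of, ← lift_lift, hW', hV, inv_mul_cancel])
    rw [map_mul, map_inv, FreeGroup.lift_apply_of, ← lift_lift, inv_mul_eq_one] at h3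
    exact h3.symm
  have hX'V' : (fun i => FreeGroup.lift (fun j => FreeGroup.lift X' (W j)) (V i)) = X' :=
    funext hX'V
  refine ⟨fun j => FreeGroup.lift X' (W j), ?_, ?_, ?_⟩
  · exact gen_of h1 fun i => ⟨V i, hX'V i⟩
  · intro v hv
    have := h2 (FreeGroup.lift W v) (Or.inl ⟨v, hv, rfl⟩)
    rw [lift_lift, this, ← lift_lift, hW']
  · refine ⟨FreeGroup.lift V w, ?_⟩
    rw [← lift_lift, hX'V', ← lift_lift, hV']
    exact hw

/-! ### the marking of `G × ℤ` -/

/-- the standard extension of a generating tuple of `G` to `G × ℤ` -/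
def ext {α G : Type} [Group G] (X : α → G) : Option α → G × Multiplicative ℤ
  | none => (1, Multiplicative.ofAdd 1)
  | some j => (X j, 1)

/-- forget the last letter -/
def bar (α : Type) : FreeGroup (Option α) →* FreeGroup α :=
  FreeGroup.lift (fun o => o.elim 1 FreeGroup.of)

/-- exponent of the last letter -/
def ex (α : Type) : FreeGroup (Option α) →* Multiplicative ℤ :=
  FreeGroup.lift (fun o => o.elim (Multiplicative.ofAdd 1) (fun _ => 1))

/-- the inclusion -/
def inc (α : Type) : FreeGroup α →* FreeGroup (Option α) :=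
  FreeGroup.lift (fun j => FreeGroup.of (some j))

theorem bar_inc {α : Type} (w : FreeGroup α) : bar α (inc α w) = w := by
  have : (bar α).comp (inc α) = MonoidHom.id _ := by
    apply FreeGroup.ext_hom
    intro i
    simp [bar, inc]
  exact DFunLike.congr_fun this w

theorem ex_inc {α : Type} (w : FreeGroup α) : ex α (inc α w) = 1 := by
  have : (ex α).comp (inc α) = 1 := by
    apply FreeGroup.ext_hom
    intro i
    simp [ex, inc]
  exact DFunLike.congr_fun this w

theorem lift_ext {α G : Type} [Group G] (X : α → G) (w : FreeGroup (Option α)) :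
    FreeGroup.lift (ext X) w = (FreeGroup.lift X (bar α w), ex α w) := by
  have : FreeGroup.lift (ext X) = ((FreeGroup.lift X).comp (bar α)).prod (ex α) := by
    apply FreeGroup.ext_hom
    intro i
    rcases i with _ | j <;> simp [ext, bar, ex]
  rw [this]; rfl

theorem lift_ext_eq_one {α G : Type} [Group G] (X : α → G) (w : FreeGroup (Option α)) :
    FreeGroup.lift (ext X) w = 1 ↔ (FreeGroup.lift X (bar α w) = 1 ∧ ex α w = 1) := by
  rw [lift_ext, Prod.mk_eq_one]

theorem gen_ext {α G : Type} [Group G] {X : α → G} (hX : Gen X) : Gen (ext X) := by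
  rintro ⟨g, z⟩
  obtain ⟨w, hw⟩ := hX g
  refine ⟨inc α w * FreeGroup.of none ^ (Multiplicative.toAdd z), ?_⟩
  rw [lift_ext, map_mul, map_mul, map_mul, bar_inc, ex_inc, map_zpow, map_zpow]
  have e1 : bar α (FreeGroup.of none) = 1 := by simp [bar]
  have e2 : ex α (FreeGroup.of none) = Multiplicative.ofAdd 1 := by simp [ex]
  have e3 : ex α (FreeGroup.of none ^ (Multiplicative.toAdd z)) = z := by
    rw [map_zpow, e2, ← Int.ofAdd_mul, one_mul]
    rfl
  rw [e1, e3, map_one, one_zpow, mul_one, one_mul, hw]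

theorem acc_ext {α G : Type} [Group G] {X : α → G} (h : Acc X) : Acc (ext X) := by
  intro B hB
  obtain ⟨X', h1, h2, w, hw⟩ := h (bar α '' B) (hB.image _)
  refine ⟨ext X', gen_ext h1, ?_, inc α w, ?_⟩
  · intro v hv
    rw [lift_ext_eq_one, lift_ext_eq_one, h2 (bar α v) ⟨v, hv, rfl⟩]
  · rw [lift_ext_eq_one, lift_ext_eq_one, bar_inc, ex_inc]
    simpa using hw

/-! ### finitely generated -/

theorem exists_gen (G : Type) [Group G] [h : Group.FG G] :
    ∃ (n : ℕ) (X : Fin n → G), 0 < n ∧ Gen X := by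
  obtain ⟨S, hS⟩ := h.out
  let Y : Option S → G := fun o => o.elim 1 Subtype.val
  have hY : Gen Y := by
    show Function.Surjective (FreeGroup.lift Y)
    rw [← MonoidHom.range_eq_top, eq_top_iff, ← hS, Subgroup.closure_le]
    intro x hx
    exact ⟨FreeGroup.of (some ⟨x, hx⟩), by simp [Y]⟩
  let e := Fintype.equivFin (Option S)
  refine ⟨Fintype.card (Option S), fun i => Y (e.symm i), Fintype.card_pos, ?_⟩
  exact gen_of hY fun i => ⟨FreeGroup.of (e i), by simp⟩

theorem fg_of_gen {α G : Type} [Finite α] [Group G] (X : α → G) (hX : Gen X) : Group.FG G := by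
  exact Group.fg_of_surjective hX

/-- `G` condensed implies `G × ℤ` condensed -/
theorem condensed_prod {G : Type} [Group G] (h : Condensed G) :
    Condensed (G × Multiplicative ℤ) := by
  rw [condensed_iff] at h ⊢
  obtain ⟨h1, h2⟩ := h
  obtain ⟨n, X, hn, hX⟩ := exists_gen G
  refine ⟨fg_of_gen (ext X) (gen_ext hX), ?_⟩
  intro m Z hm hZ
  exact acc_transfer (ext X) Z (gen_ext hX) hZ (acc_ext (h2 n X hn hX))

end Pool.Agent.T9h94.CZ
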