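import Pool.Agent.T9h94.CZ.Main
import Pool.Agent.T9h53.CZ.Match
import Pool.Agent.T9h8.CZ.Smith
import Pool.Agent.T9h89.CZ.Triv
import Pool.Agent.T9h86.CZ.Arith

set_option autoImplicit false

namespace Pool.Agent.T9h94.CZ

open Pool.Agent.H67R3.CondDefs

theorem condensed_prod_iff (hD : SArith) (G : Type) [Group G] :
    Condensed (G × Multiplicative ℤ) ↔ Condensed G :=
  main_iff (Pool.Agent.T9h89.CZ.sTriv Pool.Agent.T9h53.CZ.sMatch) hD G

/-- `G × ℤ ^ (k + 1) ≃ (G × ℤ ^ k) × ℤ` -/
def splitLast (G : Type) [Group G] (k : ℕ) :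
    (G × (Fin (k + 1) → Multiplicative ℤ)) ≃*
      ((G × (Fin k → Multiplicative ℤ)) × Multiplicative ℤ) where
  toFun x := ((x.1, fun i => x.2 i.castSucc), x.2 (Fin.last k))
  invFun x := (x.1.1, Fin.snoc (α := fun _ => Multiplicative ℤ) x.1.2 x.2)
  left_inv x := by
    refine Prod.ext rfl ?_
    funext i
    refine Fin.lastCases ?_ (fun j => ?_) i
    · simp
    · simp
  right_inv x := by
    refine Prod.ext (Prod.ext rfl ?_) ?_
    · funext i
      simp
    · simp
  map_mul' _ _ := rfl

/-- `G × ℤ ^ 0 ≃ G` -/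
def prodZero (G : Type) [Group G] : (G × (Fin 0 → Multiplicative ℤ)) ≃* G where
  toFun x := x.1
  invFun x := (x, 1)
  left_inv x := Prod.ext rfl (Subsingleton.elim _ _)
  right_inv _ := rfl
  map_mul' _ _ := rfl

theorem condensed_pow_iff (hD : SArith) (G : Type) [Group G] (k : ℕ) :
    Condensed (G × (Fin k → Multiplicative ℤ)) ↔ Condensed G := by
  induction k with
  | zero => exact ⟨condensed_congr (prodZero G), condensed_congr (prodZero G).symm⟩
  | succ k ih =>
    rw [← ih, ← condensed_prod_iff hD (G × (Fin k → Multiplicative ℤ))]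
    exact ⟨condensed_congr (splitLast G k), condensed_congr (splitLast G k).symm⟩

theorem final (hD : SArith) :
    (∀ (G : Type) [Group G], Condensed (G × Multiplicative ℤ) ↔ Condensed G) ∧
    ∀ (G H : Type) [Group G] [Group H] (k : ℕ),
      Nonempty ((G × (Fin k → Multiplicative ℤ)) ≃* (H × (Fin k → Multiplicative ℤ))) →
        (Condensed G ↔ Condensed H) := by
  refine ⟨fun G _ => condensed_prod_iff hD G, ?_⟩
  rintro G H _ _ k ⟨e⟩
  rw [← condensed_pow_iff hD G k, ← condensed_pow_iff hD H k]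
  exact ⟨condensed_congr e, condensed_congr e.symm⟩

theorem sArith : SArith := Pool.Agent.T9h86.CZ.sArith Pool.Agent.T9h8.CZ.sSmith

end Pool.Agent.T9h94.CZ

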