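import Pool.Agent.T9h94.CZ.Fin2
import Pool.Agent.T9h8.CZ.Inv
import Pool.Agent.T9h66.CZ.FinDir
import Pool.Agent.T9h70.CZ.FreePrim
import Pool.Agent.T9h70.CZ.FreeLinear
import Pool.Agent.T9h70.CZ.Linear

set_option autoImplicit false

namespace Pool.Agent.T9h94.CZ

open Pool.Agent.H67R3.CondDefs

theorem sInv : SInv := Pool.Agent.T9h8.CZ.sInv

theorem sFinDir : SFinDir := Pool.Agent.T9h66.CZ.sFinDir sHopf

theorem prim_neutral (P : Type) [Group P] (h1 : Group.IsFinitelyPresented P) (h2 : EqN P)
    (h3 : Prim P) : Neutral P := neutral_prim sInv sFinDir P h1 h2 h3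

theorem finite_neutral (P : Type) [Group P] [Finite P] : Neutral P := neutral_finite sInv P

theorem free_neutral (m : ℕ) : Neutral (FreeGroup (Fin m)) :=
  neutral_free sInv sFinDir Pool.Agent.T9h70.CZ.sFreePrim Pool.Agent.T9h70.CZ.sLinear
    Pool.Agent.T9h70.CZ.sFreeLinear m

theorem zpow_neutral (k : ℕ) : Neutral (Fin k → Multiplicative ℤ) :=
  fun G _ => condensed_pow_iff sArith G k

/-- finitely generated abelian groups are neutral -/
theorem comm_neutral (P : Type) [CommGroup P] (hP : Group.FG P) : Neutral P := by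
  obtain ⟨ι, j, _, _, p, hp, e, ⟨f⟩⟩ := CommGroup.equiv_free_prod_prod_multiplicative_zmod P
  have h1 : Neutral (j → Multiplicative ℤ) :=
    (zpow_neutral (Fintype.card j)).congr
      (MulEquiv.arrowCongr (Fintype.equivFin j).symm (MulEquiv.refl _))
  have hne : ∀ i, NeZero (p i ^ e i) := fun i => ⟨pow_ne_zero _ (hp i).ne_zero⟩
  have hfin : ∀ i, Finite (Multiplicative (ZMod (p i ^ e i))) := fun i => by
    have := hne i
    exact inferInstanceAs (Finite (ZMod (p i ^ e i)))
  have h2 : Neutral ((i : ι) → Multiplicative (ZMod (p i ^ e i))) := finite_neutral _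
  exact (h1.prod h2).congr f.symm

end Pool.Agent.T9h94.CZ
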