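import Pool.Agent.T9h94.CZ.Spec2

set_option autoImplicit false

namespace Pool.Agent.T9h94.CZ

/-- (N) From indecomposable to all centreless groups.
Proof. DCC for centralisers: let `Y` generate `P`. If `D n = centralizer (E n)`, `n ∈ ℕ`, is a
descending chain, we may assume that the `E n` increase (replace `E n` by `centralizer (D n)`). The
system `[x_none, w_e (x_some)]`, `e ∈ E n`, `n ∈ ℕ` (`w_e` a word with `lift Y w_e = e`) is equivalent
over `P` to a finite subsystem, which uses only `e ∈ E k`; so every `x ∈ D k` commutes with all
`e ∈ E (k+1)`, and `D k = D (k+1)`. Hence `<` is well founded on centralisers.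
Claim: if `D E : Subgroup P` commute elementwise and `D ⊔ E = ⊤` then `Neutral D`. Induction on `D`,
which is `centralizer E` (as the centre of `P` is trivial; also `D ⊓ E = ⊥`). `D` is a quotient of
`P` by `E`, a f.g. group (quotient of `P`), so `D` is finitely presented
(`Group.IsFinitelyPresented.of_surjective`, `of_FG`); `D` is `EqN`, being a subgroup. If `Prim D`,
use `h`. Otherwise `D = A B` with commuting `A, B ≠ ⊥`; `A` and `B` are smaller (with complements
`B ⊔ E`, `A ⊔ E`), hence neutral, and `D ≃* A × B`, so `Neutral D` (`Neutral.prod`, `Neutral.congr`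
in `T9h94/CZ/Fin2.lean`). Finally `D = ⊤`, `E = ⊥`. -/
def SCentreless : Prop :=
  (∀ (P : Type) [Group P], Group.IsFinitelyPresented P → EqN P → Prim P → Neutral P) →
    ∀ (P : Type) [Group P], Group.IsFinitelyPresented P → EqN P → Subgroup.center P = ⊥ → Neutral P

end Pool.Agent.T9h94.CZ
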