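import Pool.Agent.T9h94.CZ.Fin3
import Pool.Agent.T9h94.CZ.Spec3

set_option autoImplicit false

namespace Pool.Agent.T9h94.CZ

open Pool.Agent.H67R3.CondDefs

/-- it is enough to consider the index types `Fin n` -/
theorem eqN_of_fin (P : Type) [Group P]
    (h : ∀ (n : ℕ) (S : Set (FreeGroup (Fin n))), ∃ T : Set (FreeGroup (Fin n)), T.Finite ∧
      T ⊆ S ∧ ∀ x : Fin n → P, (∀ w ∈ T, FreeGroup.lift x w = 1) →
        ∀ w ∈ S, FreeGroup.lift x w = 1) : EqN P := by
  intro α _ S
  have := Fintype.ofFinite α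
  let e := Fintype.equivFin α
  let f : FreeGroup α →* FreeGroup (Fin (Fintype.card α)) := FreeGroup.map e
  let g : FreeGroup (Fin (Fintype.card α)) →* FreeGroup α := FreeGroup.map e.symm
  have hgf : ∀ w, g (f w) = w := by
    intro w
    have : g.comp f = MonoidHom.id _ := by
      apply FreeGroup.ext_hom
      intro i
      simp [f, g]
    exact DFunLike.congr_fun this w
  have hf : ∀ (x : Fin (Fintype.card α) → P) (w : FreeGroup α),
      FreeGroup.lift x (f w) = FreeGroup.lift (fun i => x (e i)) w := by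
    intro x w
    have : (FreeGroup.lift x).comp f = FreeGroup.lift (fun i => x (e i)) := by
      apply FreeGroup.ext_hom
      intro i
      simp [f]
    exact DFunLike.congr_fun this w
  obtain ⟨T, hT, hTS, hT2⟩ := h _ (f '' S)
  refine ⟨g '' T, hT.image _, ?_, ?_⟩
  · rintro _ ⟨t, ht, rfl⟩
    obtain ⟨s, hs, rfl⟩ := hTS ht
    rw [hgf]; exact hs
  · intro x hx w hw
    have hx' : (fun i => (fun j => x (e.symm j)) (e i)) = x := by
      funext i
      simp
    have h3 := hT2 (fun j => x (e.symm j)) (by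
      intro t ht
      obtain ⟨s, hs, rfl⟩ := hTS ht
      rw [hf, hx', ← hgf s]
      exact hx _ ⟨f s, ht, rfl⟩) (f w) ⟨w, hw, rfl⟩
    rw [hf, hx'] at h3
    exact h3

end Pool.Agent.T9h94.CZ
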