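import Pool.Agent.T9h94.CZ.Spec2

/-!
# MP_f5330b_al, part 3: every finitely presented equationally Noetherian group `P` with finitely
generated centre is a neutral direct factor (Spec4, helper94)

Idea: reduce `G × P` to `G × center P`, and `center P` is f.g. abelian, hence neutral (part 2).
-/

set_option autoImplicit false

namespace Pool.Agent.T9h94.CZ

open Pool.Agent.H67R3.CondDefs

/-- `f` and `h` are endomorphisms with commuting images and `f x * h x = x`.
Facts (for `Idem f h`; `[x, y] = x * y * x⁻¹ * y⁻¹`): `f [x, y] = [f x, y] = [x, f y]` (because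
`[f x, f y] = [f x, f y * h y]`), the same for `h`; `f` and `h` map the centre to the centre;
`f (h x)` and `h (f x)` are central (`[f (h x), y] = f [h x, y] = [h x, f y] = 1`). If also
`Idem f₂ h₂` then `f (f₂ x)` and `f₂ (f x)` agree modulo the centre, and so do `f (h₂ x)` and
`h₂ (f x)`, `h (h₂ x)` and `h₂ (h x)` (`[f (f₂ x), y] = f [f₂ x, y] = [f₂ x, f y] = f₂ [x, f y] =
f₂ [f x, y] = [f₂ (f x), y]`). -/
def Idem {L : Type} [Group L] (f h : L →* L) : Prop :=
  (∀ x, f x * h x = x) ∧ ∀ x y, f x * h y = h y * f x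

/-- The subgroups `U = {x | h x central} = f(L) Z(L)`, for all pairs `Idem f h`. -/
def Bset (L : Type) [Group L] : Set (Subgroup L) :=
  {U | ∃ f h : L →* L, Idem f h ∧ (Subgroup.center L).comap h = U}

/-- (B1) Chain condition for centralisers. Proof. Let `Y` generate `L`. We may assume that the sets
`E n` increase (replace `E n` by the centraliser of the centraliser). The system
`[x_none, w_e (x_some)] = 1`, `e ∈ E n`, `n ∈ ℕ` (`w_e` a word with `lift Y w_e = e`) is equivalent
over `L` to a finite subsystem, which only uses `e ∈ E n` for one `n`. Every `x` in the centraliser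
of `E n` (with `x_some = Y`) is a solution of it, so commutes with all `E m`. -/
def SDCC : Prop :=
  ∀ (L : Type) [Group L], Group.FG L → EqN L → ∀ E : ℕ → Set L,
    (∀ n, Subgroup.centralizer (E (n + 1)) ≤ Subgroup.centralizer (E n)) →
    ∃ n, ∀ m, n ≤ m → Subgroup.centralizer (E m) = Subgroup.centralizer (E n)

/-- (B2) `Bset L` is closed under intersections. Proof: for `Idem f₁ h₁`, `Idem f₂ h₂` take
`f x = f₁ (f₂ x)`, `h x = f₁ (h₂ x) * h₁ x` (a homomorphism since all images commute). If `h₁ x` and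
`h₂ x` are central so is `h x`. Conversely let `h x` be central. Apply `h₁`: `h₁ (f₁ (h₂ x))` is
central, so `h₁ (h₁ x)` is; `f₁ (h₁ x)` is central, so `h₁ x` is central. So `f₁ (h₂ x)` is central;
`h₁ (h₂ x)` agrees with `h₂ (h₁ x)` (central) modulo the centre; so `h₂ x = f₁ (h₂ x) * h₁ (h₂ x)` is
central. -/
def SInter : Prop :=
  ∀ (L : Type) [Group L] (U W : Subgroup L), U ∈ Bset L → W ∈ Bset L → U ⊓ W ∈ Bset L

/-- (B3) Complements in `Bset L`. Proof: `V = {x | f x central}`. `U = centralizer V`: if `h x` is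
central and `f y` is central then `x = f x * z`, `y = h y * z'` commute; if `x` commutes with `V`
(which contains all `h y`) then `[h x, y] = [x, h y] = 1`. If `x ∈ W`, say `W = {x | h₂ x central}`,
then `f x ∈ W ⊓ U` because `h₂ (f x)` agrees with `f (h₂ x)` modulo the centre; likewise
`h x ∈ W ⊓ V`; and `x = f x * h x`. -/
def SCompl : Prop :=
  ∀ (L : Type) [Group L] (U : Subgroup L), U ∈ Bset L → ∃ V ∈ Bset L,
    U = Subgroup.centralizer (V : Set L) ∧ U ⊓ V = Subgroup.center L ∧
      ∀ W ∈ Bset L, W = (W ⊓ U) ⊔ (W ⊓ V)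

/-- (B4) `Bset L` is finite. Proof from (B1), (B2), (B3). All elements of `Bset L` are centralisers,
so by (B1) `Bset L` has no infinite strictly decreasing sequences. Otherwise let `W ∈ Bset L` be
minimal such that `{W ⊓ U | U ∈ Bset L}` is infinite (`⊤ ∈ Bset L`: `f = id`, `h = 1`). If for every
`U ∈ Bset L`, with complement `V`, `W ≤ U` or `W ≤ V`, then `W ⊓ U` is `W` or the centre, two
possibilities only. So there is `U` with `W ⊓ U < W` and `W ⊓ V < W` and by minimality the sets
`{W ⊓ U ⊓ U'}`, `{W ⊓ V ⊓ U'}` are finite; `W ⊓ U' = (W ⊓ U ⊓ U') ⊔ (W ⊓ V ⊓ U')` by (B3) for the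
element `W ⊓ U'` of `Bset L`. -/
def SBool : Prop :=
  ∀ (L : Type) [Group L], Group.FG L → EqN L → (Bset L).Finite

/-- the intersection of the kernels of all homomorphisms `M → P` -/
def resKer (M P : Type) [Group M] [Group P] : Subgroup M := ⨅ χ : M →* P, χ.ker

instance resKer_normal (M P : Type) [Group M] [Group P] : (resKer M P).Normal :=
  Subgroup.normal_iInf_normal fun χ => MonoidHom.normal_ker χ

/-- (B5) The largest residually-`P` quotient of `M` is equationally Noetherian if `P` is. Proof: a
tuple `x` of `M ⧸ resKer M P` satisfies a word iff all tuples `χ̄ (x)` of `P` do. -/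
def SRes : Prop :=
  ∀ (M P : Type) [Group M] [Group P], EqN P → EqN (M ⧸ resKer M P)

/-- the preimages in `M` of the elements of `Bset (M ⧸ resKer M P)` -/
def Om (M P : Type) [Group M] [Group P] : Set (Subgroup M) :=
  {K | ∃ U ∈ Bset (M ⧸ resKer M P), U.comap (QuotientGroup.mk' (resKer M P)) = K}

/-- (B6) `Om M P` is invariant. Proof. Take `B` from `SPull` (proved: `T9h66.CZ.sPull`). For `Z'`
close to `Z`: `lift Z w ∈ resKer` iff `lift Z' w ∈ resKer` (pull-backs are a bijection on
`M →* P`), so there is an automorphism `g` of `L = M ⧸ resKer M P` with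
`g (lift Z w) = lift Z' w`. If `U` is given by `(f, h)` then `g⁻¹ (U)` is given by
`(g⁻¹ f g, g⁻¹ h g)`. -/
def SOmInv : Prop :=
  ∀ (α M P : Type) [Finite α] [Group M] [Group P] (Z : α → M), Gen Z → EqN P →
    ∃ B : Set (FreeGroup α), B.Finite ∧ ∀ Z' : α → M, Gen Z' → Close B Z Z' →
      ∀ K ∈ Om M P, ∃ K' ∈ Om M P, ∀ w, FreeGroup.lift Z w ∈ K' ↔ FreeGroup.lift Z' w ∈ K

/-- (B7) `G × center P` belongs to `Om (G × P) P`. Proof: `f (g, p) = (g, 1)` and `h (g, p) = (1, p)`
preserve `resKer` (compose `χ` with them), so they induce `Idem` endomorphisms of the quotient; and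
`(1, p)` is central modulo `resKer` iff `p` is central in `P` (use `χ = snd`). -/
def SOmSnd : Prop :=
  ∀ (G P : Type) [Group G] [Group P],
    (Subgroup.center P).comap (MonoidHom.snd G P) ∈ Om (G × P) P

/-- (B8) The last step (helper94). -/
def SLast2 : Prop :=
  ∀ (G P : Type) [Group G] [Group P], Group.IsFinitelyPresented P →
    Group.FG (Subgroup.center P) →
    (∀ (α : Type) [Finite α] (Z : α → G × P), Gen Z → Acc Z → ∀ B : Set (FreeGroup α), B.Finite →
      ∃ (Z' : α → G × P) (κ : G × P →* P), Gen Z' ∧ Close B Z Z' ∧ Differ Z Z' ∧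
        Pull Z Z' κ (MonoidHom.snd G P) ∧
        ∀ w, FreeGroup.lift Z w ∈ (Subgroup.center P).comap (MonoidHom.snd G P) ↔
          FreeGroup.lift Z' w ∈ (Subgroup.center P).comap (MonoidHom.snd G P)) →
    Condensed (G × P) → Condensed (G × Subgroup.center P)

end Pool.Agent.T9h94.CZ
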