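import Pool.Agent.T9h94.CZ.Last
import Pool.Agent.T9h94.CZ.Spec4

set_option autoImplicit false

namespace Pool.Agent.T9h94.CZ

open Pool.Agent.H67R3.CondDefs Pool.Agent.H67R3.Cond

theorem snd_mem_center {G P : Type} [Group G] [Group P] {m : G × P}
    (h : m ∈ Subgroup.center (G × P)) : m.2 ∈ Subgroup.center P := by
  rw [Subgroup.mem_center_iff] at h ⊢
  intro p
  exact congrArg Prod.snd (h (1, p))

theorem sLast2 : SLast2 := by
  intro G P _ _ hfp hA hinv hcond
  rw [condensed_iff] at hcond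
  obtain ⟨h1, h2⟩ := hcond
  have hfg : Group.FG G :=
    Group.fg_of_surjective (f := MonoidHom.fst G P) Prod.fst_surjective
  obtain ⟨n, X, hn, hX⟩ := @exists_gen G _ hfg
  obtain ⟨k, C, hk, hC⟩ := @exists_gen (Subgroup.center P) _ hA
  obtain ⟨m, π, hπ, hker⟩ := hfp.out
  let Y : Fin m → P := fun j => π (FreeGroup.of j)
  have hYπ : FreeGroup.lift Y = π := lift_of π
  have hY : Gen Y := by
    show Function.Surjective (FreeGroup.lift Y)
    rw [hYπ]; exact hπ
  obtain ⟨R, hRf, hR⟩ := hker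
  obtain ⟨l, Z, hl, hZ⟩ := @exists_gen (G × P) _ h1
  have hAcc : Acc (pr X Y) := acc_transfer Z (pr X Y) hZ (gen_pr hX hY) (h2 l Z hl hZ)
  suffices hmain : Acc (pr X C) by
    rw [condensed_iff]
    refine ⟨fg_of_gen (pr X C) (gen_pr hX hC), ?_⟩
    intro r W hr hW
    exact acc_transfer (pr X C) W (gen_pr hX hC) hW hmain
  intro B hBf
  choose c hc using fun j => hY (C j : P)
  let σ : FreeGroup (Fin n ⊕ Fin k) →* FreeGroup (Fin n ⊕ Fin m) :=
    FreeGroup.lift (Sum.elim (fun i => FreeGroup.of (Sum.inl i)) (fun j => i2 _ _ (c j)))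
  let ι : G × Subgroup.center P →* G × P :=
    MonoidHom.prodMap (MonoidHom.id G) (Subgroup.center P).subtype
  have hι : Function.Injective ι := by
    rintro ⟨a, b⟩ ⟨a', b'⟩ h
    have e1 : a = a' := congrArg Prod.fst h
    have e2 : (b : P) = b' := congrArg Prod.snd h
    rw [e1, Subtype.ext e2]
  have hσ : ∀ v, FreeGroup.lift (pr X Y) (σ v) = ι (FreeGroup.lift (pr X C) v) := by
    intro v
    have : (FreeGroup.lift (pr X Y)).comp σ = ι.comp (FreeGroup.lift (pr X C)) := by
      apply FreeGroup.ext_hom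
      intro i
      rcases i with i | j
      · simp [σ, pr, ι]
      · simp only [MonoidHom.comp_apply, σ, FreeGroup.lift_apply_of, Sum.elim_inr]
        rw [lift_pr, w1_i2, w2_i2, hc, map_one]
        rfl
    exact DFunLike.congr_fun this v
  let C₀ : Set (FreeGroup (Fin n ⊕ Fin m)) := Set.range (fun ij : Fin n × Fin m =>
    FreeGroup.of (Sum.inl ij.1) * FreeGroup.of (Sum.inr ij.2) * (FreeGroup.of (Sum.inl ij.1))⁻¹ *
      (FreeGroup.of (Sum.inr ij.2))⁻¹)
  obtain ⟨Z', κ, hZ1, hZ2, ⟨w₀, hw₀⟩, hκ, hZ3⟩ := hinv _ (pr X Y) (gen_pr hX hY) hAcc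
    ((σ '' B ∪ C₀) ∪ i2 _ _ '' R)
    (((hBf.image _).union (Set.finite_range _)).union (hRf.image _))
  let X' : Fin n → G × P := fun i => Z' (Sum.inl i)
  let Y' : Fin m → G × P := fun j => Z' (Sum.inr j)
  have hZ' : Z' = Sum.elim X' Y' := by
    funext i
    rcases i with i | j <;> rfl
  have hcomm : ∀ i j, Commute (X' i) (Y' j) := by
    intro i j
    have h6 := (hZ2 _ (Or.inl (Or.inr ⟨(i, j), rfl⟩))).2 (by
      simp only [map_mul, map_inv, FreeGroup.lift_apply_of]
      simp [pr])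
    simp only [map_mul, map_inv, FreeGroup.lift_apply_of] at h6
    have h7 : Z' (Sum.inl i) * Z' (Sum.inr j) = Z' (Sum.inr j) * Z' (Sum.inl i) := by
      have := mul_inv_eq_one.1 h6
      rw [mul_inv_eq_iff_eq_mul] at this
      exact this
    exact h7
  have hnf : ∀ w, FreeGroup.lift Z' w =
      FreeGroup.lift X' (w1 _ _ w) * FreeGroup.lift Y' (w2 _ _ w) := by
    intro w
    rw [hZ']
    exact nf2 hcomm w
  have hnf1 : ∀ v, FreeGroup.lift Z' (i1 _ _ v) = FreeGroup.lift X' v := by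
    intro v
    rw [hnf, w1_i1, w2_i1, map_one, mul_one]
  have hnf2 : ∀ v, FreeGroup.lift Z' (i2 _ _ v) = FreeGroup.lift Y' v := by
    intro v
    rw [hnf, w1_i2, w2_i2, map_one, one_mul]
  have hX'2 : ∀ i, (X' i).2 ∈ Subgroup.center P := by
    intro i
    have := (hZ3 (FreeGroup.of (Sum.inl i))).1 (by
      rw [Subgroup.mem_comap, FreeGroup.lift_apply_of]
      exact Subgroup.one_mem _)
    rw [Subgroup.mem_comap, FreeGroup.lift_apply_of] at this
    exact this
  -- the homomorphism of `P`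
  have hRY' : ∀ r ∈ π.ker, FreeGroup.lift Y' r = 1 := by
    intro r hr
    rw [← hR] at hr
    have hle : Subgroup.normalClosure R ≤ (FreeGroup.lift Y').ker := by
      apply Subgroup.normalClosure_le_normal
      intro s hs
      have h6 := (hZ2 (i2 _ _ s) (Or.inr ⟨s, hs, rfl⟩)).2 (by
        rw [lift_pr_eq_one, w1_i2, w2_i2, map_one, hYπ]
        refine ⟨rfl, ?_⟩
        have : s ∈ π.ker := by
          rw [← hR]; exact Subgroup.subset_normalClosure hs
        exact this)
      rw [hnf2] at h6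
      exact h6
    exact hle hr
  let θ : P →* G × P := π.liftOfSurjective hπ ⟨FreeGroup.lift Y', hRY'⟩
  have hθ : ∀ w, θ (FreeGroup.lift Y w) = FreeGroup.lift Y' w := by
    intro w
    rw [hYπ]
    exact MonoidHom.liftOfRightInverse_comp_apply _ _ _ ⟨FreeGroup.lift Y', hRY'⟩ w
  have hθc : ∀ a ∈ Subgroup.center P, θ a ∈ Subgroup.center (G × P) := by
    intro a ha
    obtain ⟨v, rfl⟩ := hY a
    rw [Subgroup.mem_center_iff]
    intro y
    obtain ⟨w, rfl⟩ := hZ1 y
    have e1 : Commute (FreeGroup.lift X' (w1 _ _ w)) (θ (FreeGroup.lift Y v)) := by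
      rw [hθ]; exact comm_lift hcomm _ _
    have e2 : Commute (FreeGroup.lift Y' (w2 _ _ w)) (θ (FreeGroup.lift Y v)) := by
      rw [← hθ]
      have := (Subgroup.mem_center_iff.1 ha) (FreeGroup.lift Y (w2 _ _ w))
      show _ * _ = _ * _
      rw [← map_mul, this, map_mul]
    rw [hnf]
    exact (e1.mul_left e2).eq
  let X'' : Fin n → G × Subgroup.center P := fun i => ((X' i).1, ⟨(X' i).2, hX'2 i⟩)
  let C'' : Fin k → G × Subgroup.center P := fun j =>
    ((θ (C j)).1, ⟨(θ (C j)).2, snd_mem_center (hθc _ (C j).2)⟩)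
  let D : Fin n ⊕ Fin k → G × Subgroup.center P := Sum.elim X'' C''
  have hD : ∀ v, ι (FreeGroup.lift D v) = FreeGroup.lift Z' (σ v) := by
    intro v
    have : ι.comp (FreeGroup.lift D) = (FreeGroup.lift Z').comp σ := by
      apply FreeGroup.ext_hom
      intro i
      rcases i with i | j
      · simp only [MonoidHom.comp_apply, σ, FreeGroup.lift_apply_of, Sum.elim_inl]
        rfl
      · simp only [MonoidHom.comp_apply, σ, FreeGroup.lift_apply_of, Sum.elim_inr]
        rw [hnf2, ← hθ, hc]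
        rfl
    exact DFunLike.congr_fun this v
  have hD1 : ∀ v, FreeGroup.lift D v = 1 ↔ FreeGroup.lift Z' (σ v) = 1 := by
    intro v
    rw [← hD]
    constructor
    · intro h
      rw [h, map_one]
    · intro h
      exact hι (by rw [h, map_one])
  have hσ1 : ∀ v, σ (i1 _ _ v) = i1 _ _ v := by
    intro v
    have : σ.comp (i1 _ _) = i1 _ _ := by
      apply FreeGroup.ext_hom
      intro i
      simp [σ, i1]
    exact DFunLike.congr_fun this v
  have hD2 : ∀ v, ι (FreeGroup.lift D (i1 _ _ v)) = FreeGroup.lift X' v := by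
    intro v
    rw [hD, hσ1, hnf1]
  have hD3 : ∀ u, ι (FreeGroup.lift D (i2 _ _ u)) = θ (FreeGroup.lift C u : P) := by
    intro u
    have : (ι.comp (FreeGroup.lift D)).comp (i2 _ _) =
        (θ.comp (Subgroup.center P).subtype).comp (FreeGroup.lift C) := by
      apply FreeGroup.ext_hom
      intro j
      simp only [MonoidHom.comp_apply, i2, FreeGroup.lift_apply_of]
      rfl
    exact DFunLike.congr_fun this u
  refine ⟨D, ?_, ?_, ?_⟩
  · intro g
    obtain ⟨w, hw⟩ := hZ1 (ι g)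
    rw [hnf] at hw
    have hp : FreeGroup.lift Y (w2 _ _ w) ∈ Subgroup.center P := by
      have h6 := hZ3 (i2 _ _ (w2 _ _ w))
      rw [Subgroup.mem_comap, Subgroup.mem_comap, lift_pr, hnf2, w2_i2] at h6
      apply h6.2
      show (FreeGroup.lift Y' (w2 _ _ w)).2 ∈ Subgroup.center P
      have e1 : (FreeGroup.lift Y' (w2 _ _ w)).2 =
          ((FreeGroup.lift X' (w1 _ _ w)).2)⁻¹ * (ι g).2 := by
        rw [← hw]; simp
      rw [e1]
      refine Subgroup.mul_mem _ (Subgroup.inv_mem _ ?_) g.2.2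
      rw [← hD2]
      exact (FreeGroup.lift D (i1 _ _ (w1 _ _ w))).2.2
    obtain ⟨u, hu⟩ := hC ⟨_, hp⟩
    refine ⟨i1 _ _ (w1 _ _ w) * i2 _ _ u, hι ?_⟩
    rw [map_mul, map_mul, hD2, hD3, hu, ← hw, hθ]
  · intro v hv
    rw [hD1, hZ2 _ (Or.inl (Or.inl ⟨v, hv, rfl⟩)), hσ]
    constructor
    · intro h
      exact hι (by rw [h, map_one])
    · intro h
      rw [h, map_one]
  · by_contra hcon
    have hcon' : ∀ v, (FreeGroup.lift D v = 1 ↔ FreeGroup.lift (pr X C) v = 1) := by
      intro v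
      by_contra h
      exact hcon ⟨v, h⟩
    have key : ∀ v, FreeGroup.lift X' v = 1 ↔ FreeGroup.lift X v = 1 := by
      intro v
      have h6 := hcon' (i1 _ _ v)
      rw [lift_pr_eq_one, w1_i1, w2_i1, map_one, hD1, hσ1, hnf1] at h6
      simpa using h6
    have hY1 : ∀ v, FreeGroup.lift Y v = 1 → FreeGroup.lift Y' v = 1 := by
      intro v hv
      rw [← hθ, hv, map_one]
    apply hw₀
    rw [lift_pr_eq_one]
    constructor
    · intro h
      have e3 : FreeGroup.lift Y (w2 _ _ w₀) = 1 := by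
        have h6 := hκ w₀
        rw [h, map_one, lift_pr] at h6
        exact h6
      rw [hnf, hY1 _ e3, mul_one, key] at h
      exact ⟨h, e3⟩
    · rintro ⟨h, e3⟩
      rw [hnf, hY1 _ e3, mul_one, key]
      exact h

end Pool.Agent.T9h94.CZ
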