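import Pool.Agent.T9h94.CZ.Fin4
import Pool.Agent.T9h94.CZ.Last2
import Pool.Agent.T9h41.CZ.OmInv

set_option autoImplicit false

namespace Pool.Agent.T9h94.CZ

open Pool.Agent.H67R3.CondDefs

theorem comm_neutral' (P : Type) [g : Group P] (hc : ∀ a b : P, a * b = b * a)
    (hP : Group.FG P) : Neutral P :=
  @comm_neutral P { g with mul_comm := hc } hP

theorem center_comm (P : Type) [Group P] (a b : Subgroup.center P) : a * b = b * a :=
  Subtype.ext ((Subgroup.mem_center_iff.1 b.2 a))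

/-- the main theorem, from the finiteness of `Bset` -/
theorem neutral_main (hBool : SBool) (hRes : SRes) (hSnd : SOmSnd) (P : Type) [Group P]
    (hfp : Group.IsFinitelyPresented P) (hE : EqN P) (hA : Group.FG (Subgroup.center P)) :
    Neutral P := by
  intro G _
  refine ⟨?_, fun h => condensed_prod_right (fg_of_fp hfp) h⟩
  intro h
  refine (comm_neutral' (Subgroup.center P) (center_comm P) hA G).1 (sLast2 G P hfp hA ?_ h)
  intro α _ Z hZ hAcc B hB
  obtain ⟨B₀, hB₀, hΩ⟩ := Pool.Agent.T9h41.CZ.sOmInv α (G × P) P Z hZ hE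
  obtain ⟨B₁, hB₁, hpull⟩ := Pool.Agent.T9h66.CZ.sPull α (G × P) P Z hZ hE
  have hfgM : Group.FG (G × P) := fg_of_gen Z hZ
  have hfin : (Om (G × P) P).Finite := by
    have h1 : (Bset ((G × P) ⧸ resKer (G × P) P)).Finite :=
      hBool _ (QuotientGroup.fg _) (hRes _ _ hE)
    refine (h1.image (fun U => U.comap (QuotientGroup.mk' (resKer (G × P) P)))).subset ?_
    rintro K ⟨U, hU, rfl⟩
    exact ⟨U, hU, rfl⟩
  obtain ⟨Z', h1, h2, h3, h4⟩ := sInv α (G × P) Z hZ hAcc (Om (G × P) P) hfin ⟨B₀, hB₀, hΩ⟩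
    (B ∪ B₁) (hB.union hB₁)
  obtain ⟨-, hp2⟩ := hpull Z' h1 (fun w hw => h2 w (Or.inr hw))
  obtain ⟨κ, hκ⟩ := hp2 (MonoidHom.snd G P)
  exact ⟨Z', κ, h1, fun w hw => h2 w (Or.inl hw), h3, hκ, h4 _ (hSnd G P)⟩

/-- linear groups -/
theorem eqN_of_linear (P : Type) [Group P] (K : Type) [Field K] (d : ℕ)
    (φ : P →* Matrix.GeneralLinearGroup (Fin d) K) (h : Function.Injective φ) : EqN P :=
  Pool.Agent.T9h70.CZ.sLinear P K d φ h

end Pool.Agent.T9h94.CZ
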