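import Pool.Agent.T9h94.CZ.Fin5
import Pool.Agent.T9h89.CZ.DCC
import Pool.Agent.T9h89.CZ.Inter
import Pool.Agent.T9h95.CZ.Compl
import Pool.Agent.T9h95.CZ.BoolP
import Pool.Agent.T9h95.CZ.Res
import Pool.Agent.T9h67.CZ.OmSnd

set_option autoImplicit false

namespace Pool.Agent.T9h94.CZ

open Pool.Agent.H67R3.CondDefs

theorem sBool : SBool :=
  Pool.Agent.T9h95.CZ.sBool Pool.Agent.T9h89.CZ.sDCC Pool.Agent.T9h89.CZ.sInter
    Pool.Agent.T9h95.CZ.sCompl

theorem main_neutral (P : Type) [Group P] (hfp : Group.IsFinitelyPresented P) (hE : EqN P)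
    (hA : Group.FG (Subgroup.center P)) : Neutral P :=
  neutral_main sBool Pool.Agent.T9h95.CZ.sRes Pool.Agent.T9h67.CZ.sOmSnd P hfp hE hA

end Pool.Agent.T9h94.CZ
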