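import Pool.Agent.T9h94.CZ.Spec
import Pool.Agent.H67R3.CondDefs

/-!
# MP_f5330b_al, part 2: more neutral direct factors (Spec2, helper94)

Part 1 (`G × ℤ` is condensed iff `G` is) is complete. Part 2: the same for `G × P` with `P` finite
or `P` finitely presented, equationally Noetherian, centreless and directly indecomposable, for
instance `P` a free group of rank at least two. (So Q1 holds for `G × F_m` and `G × F_n`, which are
elementarily equivalent.)
-/

set_option autoImplicit false

namespace Pool.Agent.T9h94.CZ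

open Pool.Agent.H67R3.CondDefs

/-- Equationally Noetherian (equations without coefficients): every system of equations in finitely
many variables is equivalent over `P` to a finite subsystem. -/
def EqN (P : Type) [Group P] : Prop :=
  ∀ (α : Type) [Finite α] (S : Set (FreeGroup α)), ∃ T : Set (FreeGroup α), T.Finite ∧ T ⊆ S ∧
    ∀ x : α → P, (∀ w ∈ T, FreeGroup.lift x w = 1) → ∀ w ∈ S, FreeGroup.lift x w = 1

/-- `P` is not a product of two nontrivial commuting subgroups. (For `P ≠ 1`: the centre is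
trivial and `P` is directly indecomposable.) -/
def Prim (P : Type) [Group P] : Prop :=
  ∀ A B : Subgroup P, (∀ a ∈ A, ∀ b ∈ B, a * b = b * a) → A ⊔ B = ⊤ → A = ⊥ ∨ B = ⊥

/-- `χ'` is the homomorphism `Z ↦ χ (Z')`. -/
def Pull {α M P : Type} [Group M] [Group P] (Z Z' : α → M) (χ χ' : M →* P) : Prop :=
  ∀ w : FreeGroup α, χ' (FreeGroup.lift Z w) = χ (FreeGroup.lift Z' w)

/-- `χ` is onto and its kernel is a direct factor, modulo the kernels of all `ψ : M →* P`. -/
def Dir {M P : Type} [Group M] [Group P] (χ : M →* P) : Prop :=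
  Function.Surjective χ ∧ ∃ A : Subgroup M, A.map χ = ⊤ ∧
    ∀ a ∈ A, ∀ k ∈ χ.ker, ∀ ψ : M →* P, ψ (a * k) = ψ (k * a)

/-- (E) Pull-back of homomorphisms to an equationally Noetherian group along close markings is a
bijection.
Proof. Let `B ⊆ ker (lift Z)` be finite and equivalent over `P` to `ker (lift Z)` (`EqN`).
If `Close B Z Z'` then for `χ : M →* P` the tuple `χ ∘ Z'` satisfies `B`, hence `ker (lift Z)`, so
`χ ∘ lift Z'` factors through `lift Z` (onto): this is `χ'`.
Surjectivity (Hopf argument). Choose words `V j` with `Z' j = lift Z (V j)`, `V* = lift V`, so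
`lift Z' w = lift Z (V* w)`; and `U j` with `Z j = lift Z' (U j)`. Let
`R k = {w | ∀ χ : M →* P, χ (lift Z (V*^k w)) = 1}`. As `χ (lift Z (V*^(k+1) w)) =
χ' (lift Z (V*^k w))`, `R k ⊆ R (k+1)`. Let `R` be the union, `S₀ ⊆ R` finite and equivalent to `R`
over `P`; `S₀ ⊆ R k` for some `k`; the tuples `χ (lift Z (V*^k x_j))` satisfy `S₀`, so
`R (k+1) ⊆ R k`. Modulo `ker (lift Z) ⊆ R 0` every `w` is `V* w'` (`w' = lift U w`), and
`V* (R 0) ⊆ R 0`; iterating, `w = V*^k (w_k)` modulo `R 0`. So if `w ∈ R 1` then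
`w_k ∈ R (k+1) = R k`, so `w ∈ R 0`. Given `χ'`, define `χ (lift Z' w) = χ' (lift Z w)`: well defined,
because `lift Z' w = 1` implies `w ∈ R 1 = R 0`. -/
def SPull : Prop :=
  ∀ (α M P : Type) [Finite α] [Group M] [Group P] (Z : α → M), Gen Z → EqN P →
    ∃ B : Set (FreeGroup α), B.Finite ∧ ∀ Z' : α → M, Gen Z' → Close B Z Z' →
      (∀ χ : M →* P, ∃ χ' : M →* P, Pull Z Z' χ χ') ∧ (∀ χ' : M →* P, ∃ χ : M →* P, Pull Z Z' χ χ')

/-- (F) The semigroup principle for a finite set `Ω` of subgroups of `M` which is invariant under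
`K ↦ K' = {lift Z w | lift Z' w ∈ K}` for `Z'` close to `Z`: then one can take `Z'` acting trivially
on `Ω`. Proof: as `STriv` (see `Pool.Agent.T9h89.CZ.Triv`): `Z'` gives an injective map
`T_{Z'} : Ω → Ω`, `K ↦ K'` (unique, because `Z` and `Z'` generate), hence an element of
`Equiv.Perm Ω`, a finite group, and `T_{Z'''} = T_{Z'} ∘ T_{Z''}` for `Z''' = V (Z'')`,
`Z' = V (Z)`. -/
def SInv : Prop :=
  ∀ (α M : Type) [Finite α] [Group M] (Z : α → M), Gen Z → Acc Z →
    ∀ Ω : Set (Subgroup M), Ω.Finite →
      (∃ B : Set (FreeGroup α), B.Finite ∧ ∀ Z' : α → M, Gen Z' → Close B Z Z' →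
        ∀ K ∈ Ω, ∃ K' ∈ Ω, ∀ w, FreeGroup.lift Z w ∈ K' ↔ FreeGroup.lift Z' w ∈ K) →
      ∀ B : Set (FreeGroup α), B.Finite → ∃ Z' : α → M, Gen Z' ∧ Close B Z Z' ∧ Differ Z Z' ∧
        ∀ K ∈ Ω, ∀ w, FreeGroup.lift Z w ∈ K ↔ FreeGroup.lift Z' w ∈ K

/-- (L) F.g. equationally Noetherian groups are Hopfian. Proof: `Y` generates `P`, `η : P → P` onto;
the relations `R k` of the tuple `η^k ∘ Y` increase; a finite subset of the union equivalent to the
union lies in some `R k`, so `R (k+1) = R k`: `η` is injective on the image of `η^k`, which is `P`. -/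
def SHopf : Prop :=
  ∀ (P : Type) [Group P], Group.FG P → EqN P → ∀ η : P →* P, Function.Surjective η →
    Function.Injective η

/-- (G) Finiteness of the set of kernels of direct type.
Proof. If infinite, take `χ i`, `A i` (`i ∈ ℕ`) with pairwise different kernels. `M = A i ⊔ ker (χ i)`.
For `i ≠ j` the subgroups `χ j (A i)` and `χ j (ker χ i)` commute and generate `P`, so by `Prim` one
is trivial. If `ker χ i ≤ ker χ j` then `χ j = η ∘ χ i` with `η` onto, injective by (L), so the
kernels agree, a contradiction. So `χ j (A i) = 1` for all `i ≠ j`. For `a ∈ A i` let `w a i` be a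
word with `lift Z (w a i) = a`. In variables `x_none, x_some j` consider the commutators of `x_none`
with `w a i (x_some)`, all `i` and `a ∈ A i`; a finite subsystem which is equivalent over `P` only
uses `i < k`. For `a₀ ∈ A k` the tuple `x_none = χ k (a₀)`, `x_some j = χ k (Z j)` satisfies it
(`χ k (a) = 1` for `a ∈ A i`, `i ≠ k`), hence `χ k (a₀)` commutes with `χ k (A k) = P`. So `P` is
abelian, so trivial (`Prim` with `A = B = ⊤`), and all kernels are `⊤`, a contradiction. -/
def SFinDir : Prop :=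
  ∀ (α M P : Type) [Finite α] [Group M] [Group P] (Z : α → M), Gen Z → EqN P → Group.FG P →
    Prim P → {K : Subgroup M | ∃ χ : M →* P, Dir χ ∧ χ.ker = K}.Finite

/-- (H) `Dir` is invariant under pull-back. Proof: `A' = (A.comap (lift Z')).map (lift Z)`; for
`a' = lift Z w`, `k' = lift Z v`, `ψ` the pull-back of `ψ₀`:
`ψ (a' k') = ψ₀ (lift Z' w * lift Z' v) = ψ₀ (lift Z' v * lift Z' w) = ψ (k' a')`. -/
def SDirInv : Prop :=
  ∀ (α M P : Type) [Group M] [Group P] (Z Z' : α → M), Gen Z → Gen Z' →
    (∀ ψ' : M →* P, ∃ ψ : M →* P, Pull Z Z' ψ ψ') →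
    ∀ χ χ' : M →* P, Dir χ → Pull Z Z' χ χ' → Dir χ'

/-- (J) Finite groups are finitely presented (relators `of a * of b * (of (a * b))⁻¹`) and
equationally Noetherian. -/
def SFinite : Prop :=
  ∀ (P : Type) [Group P] [Finite P], Group.IsFinitelyPresented P ∧ EqN P

/-- (K1) Free groups of rank `≠ 1` are not products of nontrivial commuting subgroups.
Proof: for `b ≠ 1` the centraliser of `b` in a free group is cyclic (it is a free group by
Nielsen–Schreier, with nontrivial centre). If `A, B ≠ 1` commute then `A` and `B` are in cyclic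
groups, so `A ⊔ B` is abelian, but a free group of rank at least two is not. -/
def SFreePrim : Prop := ∀ m : ℕ, m ≠ 1 → Prim (FreeGroup (Fin m))

/-- (K2) Linear groups are equationally Noetherian (Hilbert's basis theorem: the entries of
`w (x)` are polynomials in the entries of the `x j` and `x j⁻¹`). -/
def SLinear : Prop :=
  ∀ (P : Type) [Group P] (K : Type) [Field K] (d : ℕ) (φ : P →* Matrix.GeneralLinearGroup (Fin d) K),
    Function.Injective φ → EqN P

/-- (K3) Free groups of finite rank are linear. Proof: for rank two see `rho_injective` in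
`Pool/Agent/S02332.lean` (ping-pong; copy it). `FreeGroup ℤ` embeds into `FreeGroup (Fin 2)` by
`n ↦ x ^ n * y * x ^ (-n)`: compose with `x ↦ t`, `y ↦ of 0` to the semidirect product
`FreeGroup ℤ ⋊ ℤ` (shift); and `FreeGroup (Fin m)` embeds into `FreeGroup ℤ` (`FreeGroup.map`). -/
def SFreeLinear : Prop :=
  ∀ m : ℕ, ∃ φ : FreeGroup (Fin m) →* Matrix.GeneralLinearGroup (Fin 2) ℚ, Function.Injective φ

/-- (I) The last step (helper94). -/
def SLast : Prop :=
  ∀ (G P : Type) [Group G] [Group P], Group.IsFinitelyPresented P →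
    (∀ η : P →* P, Function.Surjective η → Function.Injective η) →
    (∀ (α : Type) [Finite α] (Z : α → G × P), Gen Z → Acc Z → ∀ B : Set (FreeGroup α), B.Finite →
      ∃ Z' : α → G × P, Gen Z' ∧ Close B Z Z' ∧ Differ Z Z' ∧
        ∀ w, FreeGroup.lift Z w ∈ (MonoidHom.snd G P).ker ↔
          FreeGroup.lift Z' w ∈ (MonoidHom.snd G P).ker) →
    Condensed (G × P) → Condensed G

/-- a neutral direct factor -/
def Neutral (P : Type) [Group P] : Prop :=
  ∀ (G : Type) [Group G], Condensed (G × P) ↔ Condensed G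

end Pool.Agent.T9h94.CZ
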