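import Pool.Agent.T9h94.CZ.Main
import Pool.Agent.T9h94.CZ.Spec2

set_option autoImplicit false

namespace Pool.Agent.T9h94.CZ

open Pool.Agent.H67R3.CondDefs Pool.Agent.H67R3.Cond

section words

variable (α β : Type)

/-- first part of a word -/
def w1 : FreeGroup (α ⊕ β) →* FreeGroup α :=
  FreeGroup.lift (Sum.elim FreeGroup.of (fun _ => 1))

/-- second part of a word -/
def w2 : FreeGroup (α ⊕ β) →* FreeGroup β :=
  FreeGroup.lift (Sum.elim (fun _ => 1) FreeGroup.of)

/-- inclusion of the first letters -/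
def i1 : FreeGroup α →* FreeGroup (α ⊕ β) :=
  FreeGroup.lift (fun i => FreeGroup.of (Sum.inl i))

/-- inclusion of the second letters -/
def i2 : FreeGroup β →* FreeGroup (α ⊕ β) :=
  FreeGroup.lift (fun i => FreeGroup.of (Sum.inr i))

end words

variable {α β : Type}

theorem w1_i1 (w : FreeGroup α) : w1 α β (i1 α β w) = w := by
  have : (w1 α β).comp (i1 α β) = MonoidHom.id _ := by
    apply FreeGroup.ext_hom
    intro i
    simp [w1, i1]
  exact DFunLike.congr_fun this w

theorem w2_i1 (w : FreeGroup α) : w2 α β (i1 α β w) = 1 := by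
  have : (w2 α β).comp (i1 α β) = 1 := by
    apply FreeGroup.ext_hom
    intro i
    simp [w2, i1]
  exact DFunLike.congr_fun this w

theorem w2_i2 (w : FreeGroup β) : w2 α β (i2 α β w) = w := by
  have : (w2 α β).comp (i2 α β) = MonoidHom.id _ := by
    apply FreeGroup.ext_hom
    intro i
    simp [w2, i2]
  exact DFunLike.congr_fun this w

theorem w1_i2 (w : FreeGroup β) : w1 α β (i2 α β w) = 1 := by
  have : (w1 α β).comp (i2 α β) = 1 := by
    apply FreeGroup.ext_hom
    intro i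
    simp [w1, i2]
  exact DFunLike.congr_fun this w

theorem comm_lift {M : Type} [Group M] {X' : α → M} {Y' : β → M}
    (h : ∀ i j, Commute (X' i) (Y' j)) (a : FreeGroup α) (b : FreeGroup β) :
    Commute (FreeGroup.lift X' a) (FreeGroup.lift Y' b) := by
  refine FreeGroup.induction_on a ?_ ?_ ?_ ?_
  · rw [map_one]; exact Commute.one_left _
  · intro i
    have e1 : FreeGroup.lift X' (FreeGroup.of i) = X' i := FreeGroup.lift_apply_of
    show Commute (FreeGroup.lift X' (FreeGroup.of i)) _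
    rw [e1]
    refine FreeGroup.induction_on b ?_ ?_ ?_ ?_
    · rw [map_one]; exact Commute.one_right _
    · intro j
      have e2 : FreeGroup.lift Y' (FreeGroup.of j) = Y' j := FreeGroup.lift_apply_of
      show Commute _ (FreeGroup.lift Y' (FreeGroup.of j))
      rw [e2]
      exact h i j
    · intro j hj
      rw [map_inv]; exact hj.inv_right
    · intro x y hx hy
      rw [map_mul]; exact hx.mul_right hy
  · intro i hi
    rw [map_inv]; exact hi.inv_left
  · intro x y hx hy
    rw [map_mul]; exact hx.mul_left hy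

theorem nf2 {M : Type} [Group M] {X' : α → M} {Y' : β → M}
    (h : ∀ i j, Commute (X' i) (Y' j)) (w : FreeGroup (α ⊕ β)) :
    FreeGroup.lift (Sum.elim X' Y') w =
      FreeGroup.lift X' (w1 α β w) * FreeGroup.lift Y' (w2 α β w) := by
  let ψ : FreeGroup (α ⊕ β) →* M := MonoidHom.mk'
    (fun w => FreeGroup.lift X' (w1 α β w) * FreeGroup.lift Y' (w2 α β w))
    (by
      intro a b
      simp only [map_mul]
      have := (comm_lift h (w1 α β b) (w2 α β a)).eq
      rw [mul_assoc, mul_assoc]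
      congr 1
      rw [← mul_assoc, ← mul_assoc, this])
  have : FreeGroup.lift (Sum.elim X' Y') = ψ := by
    apply FreeGroup.ext_hom
    intro i
    rcases i with i | j
    · simp [ψ, w1, w2]
    · simp [ψ, w1, w2]
  exact DFunLike.congr_fun this w

/-- the product marking -/
def pr {G P : Type} [Group G] [Group P] (X : α → G) (Y : β → P) : α ⊕ β → G × P :=
  Sum.elim (fun i => (X i, 1)) (fun j => (1, Y j))

theorem lift_pr {G P : Type} [Group G] [Group P] (X : α → G) (Y : β → P)
    (w : FreeGroup (α ⊕ β)) :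
    FreeGroup.lift (pr X Y) w = (FreeGroup.lift X (w1 α β w), FreeGroup.lift Y (w2 α β w)) := by
  have : FreeGroup.lift (pr X Y) =
      ((FreeGroup.lift X).comp (w1 α β)).prod ((FreeGroup.lift Y).comp (w2 α β)) := by
    apply FreeGroup.ext_hom
    intro i
    rcases i with i | j <;> simp [pr, w1, w2]
  rw [this]; rfl

theorem lift_pr_eq_one {G P : Type} [Group G] [Group P] (X : α → G) (Y : β → P)
    (w : FreeGroup (α ⊕ β)) :
    FreeGroup.lift (pr X Y) w = 1 ↔
      (FreeGroup.lift X (w1 α β w) = 1 ∧ FreeGroup.lift Y (w2 α β w) = 1) := by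
  rw [lift_pr, Prod.mk_eq_one]

theorem gen_pr {G P : Type} [Group G] [Group P] {X : α → G} {Y : β → P} (hX : Gen X)
    (hY : Gen Y) : Gen (pr X Y) := by
  rintro ⟨g, p⟩
  obtain ⟨u, hu⟩ := hX g
  obtain ⟨v, hv⟩ := hY p
  refine ⟨i1 α β u * i2 α β v, ?_⟩
  rw [lift_pr, map_mul, map_mul (w2 α β), w1_i1, w1_i2, w2_i1, w2_i2, mul_one, one_mul, hu, hv]

theorem acc_pr {G P : Type} [Group G] [Group P] {X : α → G} {Y : β → P} (h : Acc X)
    (hY : Gen Y) : Acc (pr X Y) := by
  intro B hB
  obtain ⟨X', h1, h2, w, hw⟩ := h (w1 α β '' B) (hB.image _)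
  refine ⟨pr X' Y, gen_pr h1 hY, ?_, i1 α β w, ?_⟩
  · intro v hv
    rw [lift_pr_eq_one, lift_pr_eq_one, h2 (w1 α β v) ⟨v, hv, rfl⟩]
  · rw [lift_pr_eq_one, lift_pr_eq_one, w1_i1, w2_i1]
    simpa using hw

theorem condensed_prod_right {G P : Type} [Group G] [Group P] (hP : Group.FG P)
    (h : Condensed G) : Condensed (G × P) := by
  rw [condensed_iff] at h ⊢
  obtain ⟨h1, h2⟩ := h
  obtain ⟨n, X, hn, hX⟩ := exists_gen G
  obtain ⟨k, Y, hk, hY⟩ := exists_gen P
  refine ⟨fg_of_gen (pr X Y) (gen_pr hX hY), ?_⟩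
  intro m Z hm hZ
  exact acc_transfer (pr X Y) Z (gen_pr hX hY) hZ (acc_pr (h2 n X hn hX) hY)

theorem sLast : SLast := by
  intro G P _ _ hfp hopf hinv hcond
  rw [condensed_iff] at hcond ⊢
  obtain ⟨h1, h2⟩ := hcond
  have hfg : Group.FG G :=
    Group.fg_of_surjective (f := MonoidHom.fst G P) Prod.fst_surjective
  refine ⟨hfg, ?_⟩
  intro n X hn hX B hBf
  obtain ⟨m, π, hπ, hker⟩ := hfp.out
  let Y : Fin m → P := fun j => π (FreeGroup.of j)
  have hYπ : FreeGroup.lift Y = π := lift_of π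
  have hY : Gen Y := by
    show Function.Surjective (FreeGroup.lift Y)
    rw [hYπ]; exact hπ
  obtain ⟨R, hRf, hR⟩ := hker
  obtain ⟨k, Z, hk, hZ⟩ := exists_gen (G × P)
  have hAcc : Acc (pr X Y) := acc_transfer Z (pr X Y) hZ (gen_pr hX hY) (h2 k Z hk hZ)
  let C : Set (FreeGroup (Fin n ⊕ Fin m)) := Set.range (fun ij : Fin n × Fin m =>
    FreeGroup.of (Sum.inl ij.1) * FreeGroup.of (Sum.inr ij.2) * (FreeGroup.of (Sum.inl ij.1))⁻¹ *
      (FreeGroup.of (Sum.inr ij.2))⁻¹)
  obtain ⟨Z', hZ1, hZ2, ⟨w₀, hw₀⟩, hZ3⟩ := hinv _ (pr X Y) (gen_pr hX hY) hAcc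
    ((i1 _ _ '' B ∪ C) ∪ i2 _ _ '' R)
    (((hBf.image _).union (Set.finite_range _)).union (hRf.image _))
  let X' : Fin n → G × P := fun i => Z' (Sum.inl i)
  let Y' : Fin m → G × P := fun j => Z' (Sum.inr j)
  have hZ' : Z' = Sum.elim X' Y' := by
    funext i
    rcases i with i | j <;> rfl
  have hcomm : ∀ i j, Commute (X' i) (Y' j) := by
    intro i j
    have h6 := (hZ2 _ (Or.inl (Or.inr ⟨(i, j), rfl⟩))).2 (by
      simp only [map_mul, map_inv, FreeGroup.lift_apply_of]
      simp [pr])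
    simp only [map_mul, map_inv, FreeGroup.lift_apply_of] at h6
    have h7 : Z' (Sum.inl i) * Z' (Sum.inr j) = Z' (Sum.inr j) * Z' (Sum.inl i) := by
      have := mul_inv_eq_one.1 h6
      rw [mul_inv_eq_iff_eq_mul] at this
      exact this
    exact h7
  have hnf : ∀ w, FreeGroup.lift Z' w =
      FreeGroup.lift X' (w1 _ _ w) * FreeGroup.lift Y' (w2 _ _ w) := by
    intro w
    rw [hZ']
    exact nf2 hcomm w
  have hX'2 : ∀ i, (X' i).2 = 1 := by
    intro i
    have := (hZ3 (FreeGroup.of (Sum.inl i))).1 (by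
      rw [MonoidHom.mem_ker, FreeGroup.lift_apply_of]
      rfl)
    rw [MonoidHom.mem_ker, FreeGroup.lift_apply_of] at this
    exact this
  let X'' : Fin n → G := fun i => (X' i).1
  have hX'' : ∀ v, FreeGroup.lift X' v = (FreeGroup.lift X'' v, 1) := by
    intro v
    have : FreeGroup.lift X' = (FreeGroup.lift X'').prod 1 := by
      apply FreeGroup.ext_hom
      intro i
      rw [FreeGroup.lift_apply_of, MonoidHom.prod_apply, FreeGroup.lift_apply_of]
      exact Prod.ext rfl (hX'2 i)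
    rw [this]; rfl
  -- the homomorphism of `P`
  have hRY' : ∀ r ∈ π.ker, FreeGroup.lift Y' r = 1 := by
    intro r hr
    rw [← hR] at hr
    have hle : Subgroup.normalClosure R ≤ (FreeGroup.lift Y').ker := by
      apply Subgroup.normalClosure_le_normal
      intro s hs
      have h6 := (hZ2 (i2 _ _ s) (Or.inr ⟨s, hs, rfl⟩)).2 (by
        rw [lift_pr_eq_one, w1_i2, w2_i2, map_one, hYπ]
        refine ⟨rfl, ?_⟩
        have : s ∈ π.ker := by
          rw [← hR]; exact Subgroup.subset_normalClosure hs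
        exact this)
      rw [hnf, w1_i2, w2_i2, map_one, one_mul] at h6
      exact h6
    exact hle hr
  let θ : P →* G × P := π.liftOfSurjective hπ ⟨FreeGroup.lift Y', hRY'⟩
  have hθ : ∀ w, θ (FreeGroup.lift Y w) = FreeGroup.lift Y' w := by
    intro w
    rw [hYπ]
    exact MonoidHom.liftOfRightInverse_comp_apply _ _ _ ⟨FreeGroup.lift Y', hRY'⟩ w
  have hβs : Function.Surjective ((MonoidHom.snd G P).comp θ) := by
    intro p
    obtain ⟨w, hw⟩ := hZ1 (1, p)
    refine ⟨FreeGroup.lift Y (w2 _ _ w), ?_⟩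
    rw [hnf, hX''] at hw
    show (θ _).2 = p
    rw [hθ]
    have := congrArg Prod.snd hw
    simpa using this
  have hβ := hopf _ hβs
  have hβ1 : ∀ v, (FreeGroup.lift Y' v).2 = 1 → FreeGroup.lift Y v = 1 := by
    intro v hv
    apply hβ
    rw [map_one]
    show (θ _).2 = 1
    rw [hθ]; exact hv
  have hY1 : ∀ v, FreeGroup.lift Y v = 1 → FreeGroup.lift Y' v = 1 := by
    intro v hv
    rw [← hθ, hv, map_one]
  refine ⟨X'', ?_, ?_, ?_⟩
  · intro g
    obtain ⟨w, hw⟩ := hZ1 (g, 1)
    rw [hnf, hX''] at hw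
    have e2 : (FreeGroup.lift Y' (w2 _ _ w)).2 = 1 := by
      have := congrArg Prod.snd hw
      simpa using this
    rw [hY1 _ (hβ1 _ e2), mul_one] at hw
    exact ⟨w1 _ _ w, congrArg Prod.fst hw⟩
  · intro v hv
    have h6 := hZ2 (i1 _ _ v) (Or.inl (Or.inl ⟨v, hv, rfl⟩))
    rw [lift_pr_eq_one, w1_i1, w2_i1, hnf, w1_i1, w2_i1, map_one, mul_one, hX'',
      Prod.mk_eq_one] at h6
    simpa using h6
  · by_contra hcon
    have hcon' : ∀ v, (FreeGroup.lift X'' v = 1 ↔ FreeGroup.lift X v = 1) := by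
      intro v
      by_contra h
      exact hcon ⟨v, h⟩
    apply hw₀
    rw [lift_pr_eq_one, ← hcon', hnf]
    constructor
    · intro h
      have e2 : (FreeGroup.lift Y' (w2 _ _ w₀)).2 = 1 := by
        rw [hX''] at h
        have := congrArg Prod.snd h
        simpa using this
      have e3 := hβ1 _ e2
      rw [hY1 _ e3, mul_one, hX'', Prod.mk_eq_one] at h
      exact ⟨h.1, e3⟩
    · rintro ⟨h, e3⟩
      rw [hX'', h, hY1 _ e3, mul_one]
      rfl

end Pool.Agent.T9h94.CZ
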