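import Pool.Agent.T9h94.CZ.Basic

set_option autoImplicit false

namespace Pool.Agent.T9h94.CZ

open Pool.Agent.H67R3.CondDefs Pool.Agent.H67R3.Cond

/-- central last letter: normal form of words -/
theorem normal_form {α M : Type} [Group M] (Z : Option α → M) (hv : ∀ y : M, Commute (Z none) y)
    (w : FreeGroup (Option α)) :
    FreeGroup.lift Z w =
      FreeGroup.lift Z (inc α (bar α w)) * (Z none) ^ (Multiplicative.toAdd (ex α w)) := by
  let ψ : FreeGroup (Option α) →* M := MonoidHom.mk'
    (fun w => FreeGroup.lift Z (inc α (bar α w)) * (Z none) ^ (Multiplicative.toAdd (ex α w)))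
    (by
      intro a b
      simp only [map_mul, toAdd_mul, zpow_add]
      have := ((hv (FreeGroup.lift Z (inc α (bar α b)))).zpow_left
        (Multiplicative.toAdd (ex α a))).eq
      rw [mul_assoc, mul_assoc]
      congr 1
      rw [← mul_assoc, ← mul_assoc, this])
  have : FreeGroup.lift Z = ψ := by
    apply FreeGroup.ext_hom
    intro i
    rcases i with _ | j
    · simp [ψ, inc, bar, ex]
    · simp [ψ, inc, bar, ex]
  exact DFunLike.congr_fun this w

theorem hom_int (f : Multiplicative ℤ →* Multiplicative ℤ)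
    (h : f (Multiplicative.ofAdd 1) = Multiplicative.ofAdd 1) (z : Multiplicative ℤ) :
    f z = z := by
  have e : z = (Multiplicative.ofAdd 1 : Multiplicative ℤ) ^ (Multiplicative.toAdd z) := by
    rw [← Int.ofAdd_mul, one_mul]; rfl
  rw [e, map_zpow, h]

/-- The hard direction for one marking. -/
theorem acc_of_ext (hB : STriv) (hD : SArith) {G : Type} [Group G] {n : ℕ} (X : Fin n → G)
    (hX : Gen X) (hAcc : Acc (ext X)) : Acc X := by
  intro B hBf
  have hfg : Group.FG G := fg_of_gen X hX
  obtain ⟨N, hN, hArith⟩ := hD G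
  let C : Set (FreeGroup (Option (Fin n))) := Set.range (fun j : Fin n =>
    FreeGroup.of (some j) * FreeGroup.of none * (FreeGroup.of (some j))⁻¹ *
      (FreeGroup.of none)⁻¹)
  obtain ⟨Z', g, h1, h2, ⟨w₀, hw₀⟩, h4, h5⟩ := hB _ _ (ext X) (gen_ext hX) hAcc N hN
    (inc (Fin n) '' B ∪ C) ((hBf.image _).union (Set.finite_range _))
  let fb : Abelianization (G × Multiplicative ℤ) →* Multiplicative ℤ :=
    Abelianization.lift (MonoidHom.snd G (Multiplicative ℤ))
  let f' : G × Multiplicative ℤ →* Multiplicative ℤ :=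
    (fb.comp g.symm.toMonoidHom).comp Abelianization.of
  have hf' : ∀ w, f' (FreeGroup.lift Z' w) = ex (Fin n) w := by
    intro w
    show fb (g.symm (Abelianization.of (FreeGroup.lift Z' w))) = _
    rw [← h4 w, MulEquiv.symm_apply_apply, lift_ext]
    rfl
  -- the central element
  have hcomm : ∀ y, Commute (Z' none) y := by
    have hc1 : ∀ j : Option (Fin n), Commute (Z' none) (Z' j) := by
      intro j
      rcases j with _ | j
      · exact Commute.refl _
      · have h6 := (h2 _ (Or.inr ⟨j, rfl⟩)).2 (by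
          simp only [map_mul, map_inv, FreeGroup.lift_apply_of]
          simp [ext])
        simp only [map_mul, map_inv, FreeGroup.lift_apply_of] at h6
        have h7 : Z' (some j) * Z' none = Z' none * Z' (some j) := by
          have := mul_inv_eq_one.1 h6
          rw [mul_inv_eq_iff_eq_mul] at this
          exact this
        exact h7.symm
    intro y
    obtain ⟨w, rfl⟩ := h1 y
    refine FreeGroup.induction_on w ?_ ?_ ?_ ?_
    · rw [map_one]; exact Commute.one_right _
    · intro i
      have : FreeGroup.lift Z' (FreeGroup.of i) = Z' i := FreeGroup.lift_apply_of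
      exact this ▸ hc1 i
    · intro i hi
      rw [map_inv]; exact hi.inv_right
    · intro a b ha hb
      rw [map_mul]; exact ha.mul_right hb
  have hcent : Z' none ∈ Subgroup.center (G × Multiplicative ℤ) := by
    rw [Subgroup.mem_center_iff]
    intro y
    exact (hcomm y).eq.symm
  have hfv : f' (Z' none) = Multiplicative.ofAdd 1 := by
    have := hf' (FreeGroup.of none)
    rw [FreeGroup.lift_apply_of] at this
    rw [this]
    simp [ex]
  have hmod : (N : ℤ) ∣ Multiplicative.toAdd (f' (1, Multiplicative.ofAdd 1)) - 1 := by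
    let χ : Abelianization (G × Multiplicative ℤ) →* Multiplicative (ZMod N) :=
      (AddMonoidHom.toMultiplicative (Int.castAddHom (ZMod N))).comp fb
    have h6 := h5 χ (g.symm (Abelianization.of (1, Multiplicative.ofAdd 1)))
    rw [MulEquiv.apply_symm_apply] at h6
    have h7 : ((1 : ℤ) : ZMod N) =
        ((Multiplicative.toAdd (f' (1, Multiplicative.ofAdd 1)) : ℤ) : ZMod N) := h6
    rw [ZMod.intCast_eq_intCast_iff_dvd_sub] at h7
    exact h7
  obtain ⟨φ, hφ⟩ := hArith f' (Z' none) hcent hfv hmod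
  have hφ2 : ∀ z : Multiplicative ℤ, f' (φ (1, z)) = z := by
    intro z
    exact hom_int ((f'.comp φ.toMonoidHom).comp (MonoidHom.inr G (Multiplicative ℤ))) hφ z
  let θ : G × Multiplicative ℤ →* G := (MonoidHom.fst G (Multiplicative ℤ)).comp
    φ.symm.toMonoidHom
  have hθ : ∀ y, θ y = (φ.symm y).1 := fun _ => rfl
  have hθ1 : ∀ y, f' y = 1 → θ y = 1 → y = 1 := by
    intro y hy1 hy2
    have e1 : φ.symm y = (1, (φ.symm y).2) := by
      rw [hθ] at hy2
      exact Prod.ext hy2 rfl
    have e2 : y = φ (1, (φ.symm y).2) := by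
      rw [← e1, MulEquiv.apply_symm_apply]
    have e3 : (φ.symm y).2 = 1 := by
      rw [← hφ2 (φ.symm y).2, ← e2, hy1]
    rw [e2, e3]
    exact map_one φ
  have hθ2 : ∀ x : G, ∃ y, f' y = 1 ∧ θ y = x := by
    intro x
    refine ⟨φ (x, (f' (φ (x, 1)))⁻¹), ?_, ?_⟩
    · have e1 : (x, (f' (φ (x, 1)))⁻¹) = ((x, 1) : G × Multiplicative ℤ) *
          (1, (f' (φ (x, 1)))⁻¹) := by simp
      rw [e1, map_mul, map_mul, hφ2, mul_inv_cancel]
    · rw [hθ, MulEquiv.symm_apply_apply]
  let X'' : Fin n → G := fun j => θ (Z' (some j))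
  have hX'' : ∀ v, FreeGroup.lift X'' v = θ (FreeGroup.lift Z' (inc (Fin n) v)) := by
    intro v
    have : FreeGroup.lift X'' = (θ.comp (FreeGroup.lift Z')).comp (inc (Fin n)) := by
      apply FreeGroup.ext_hom
      intro i
      simp [X'', inc]
    rw [this]; rfl
  have hone : ∀ v, FreeGroup.lift X'' v = 1 ↔ FreeGroup.lift Z' (inc (Fin n) v) = 1 := by
    intro v
    rw [hX'']
    constructor
    · intro h
      exact hθ1 _ (by rw [hf', ex_inc]) h
    · intro h
      rw [h, map_one]
  refine ⟨X'', ?_, ?_, ?_⟩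
  · intro x
    obtain ⟨y, hy1, hy2⟩ := hθ2 x
    obtain ⟨w, rfl⟩ := h1 y
    refine ⟨bar (Fin n) w, ?_⟩
    rw [hX'', ← hy2]
    congr 1
    rw [hf'] at hy1
    rw [normal_form Z' hcomm w, hy1]
    simp
  · intro v hv
    rw [hone, h2 _ (Or.inl ⟨v, hv, rfl⟩), lift_ext_eq_one, bar_inc, ex_inc]
    simp
  · by_contra hcon
    have hcon' : ∀ v, (FreeGroup.lift X'' v = 1 ↔ FreeGroup.lift X v = 1) := by
      intro v
      by_contra h
      exact hcon ⟨v, h⟩
    apply hw₀
    rw [lift_ext_eq_one, ← hcon', hone]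
    constructor
    · intro h
      have e1 : ex (Fin n) w₀ = 1 := by rw [← hf', h, map_one]
      refine ⟨?_, e1⟩
      rw [normal_form Z' hcomm w₀, e1] at h
      simpa using h
    · rintro ⟨h, e1⟩
      rw [normal_form Z' hcomm w₀, e1, h]
      simp

theorem condensed_of_prod (hB : STriv) (hD : SArith) {G : Type} [Group G]
    (h : Condensed (G × Multiplicative ℤ)) : Condensed G := by
  rw [condensed_iff] at h ⊢
  obtain ⟨h1, h2⟩ := h
  have hfg : Group.FG G :=
    Group.fg_of_surjective (f := MonoidHom.fst G (Multiplicative ℤ)) Prod.fst_surjective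
  refine ⟨hfg, ?_⟩
  intro n X hn hX
  obtain ⟨m, Z, hm, hZ⟩ := exists_gen (G × Multiplicative ℤ)
  exact acc_of_ext hB hD X hX
    (acc_transfer Z (ext X) hZ (gen_ext hX) (h2 m Z hm hZ))

/-- invariance under isomorphism -/
theorem condensed_congr {G H : Type} [Group G] [Group H] (e : G ≃* H) (h : Condensed G) :
    Condensed H := by
  rw [condensed_iff] at h ⊢
  obtain ⟨h1, h2⟩ := h
  refine ⟨Group.fg_of_surjective (f := e.toMonoidHom) e.surjective, ?_⟩
  intro n X hn hX B hB
  have hl : ∀ (Y : Fin n → G) w, FreeGroup.lift (fun i => e (Y i)) w = e (FreeGroup.lift Y w) := by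
    intro Y w
    have : FreeGroup.lift (fun i => e (Y i)) = e.toMonoidHom.comp (FreeGroup.lift Y) := by
      apply FreeGroup.ext_hom
      intro i
      simp
    rw [this]; rfl
  have hl' : ∀ w, FreeGroup.lift (fun i => e.symm (X i)) w = e.symm (FreeGroup.lift X w) := by
    intro w
    have : FreeGroup.lift (fun i => e.symm (X i)) =
        e.symm.toMonoidHom.comp (FreeGroup.lift X) := by
      apply FreeGroup.ext_hom
      intro i
      simp
    rw [this]; rfl
  have hgen : Gen (fun i => e.symm (X i)) := by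
    intro g
    obtain ⟨w, hw⟩ := hX (e g)
    exact ⟨w, by rw [hl', hw, MulEquiv.symm_apply_apply]⟩
  obtain ⟨Y, hY1, hY2, w, hw⟩ := h2 n _ hn hgen B hB
  refine ⟨fun i => e (Y i), ?_, ?_, w, ?_⟩
  · intro y
    obtain ⟨w, hw⟩ := hY1 (e.symm y)
    exact ⟨w, by rw [hl, hw, MulEquiv.apply_symm_apply]⟩
  · intro v hv
    have := hY2 v hv
    rw [hl', MulEquiv.map_eq_one_iff e.symm] at this
    rw [hl, MulEquiv.map_eq_one_iff e, this]
  · rw [hl', MulEquiv.map_eq_one_iff e.symm] at hw
    rw [hl, MulEquiv.map_eq_one_iff e]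
    exact hw

theorem main_iff (hB : STriv) (hD : SArith) (G : Type) [Group G] :
    Condensed (G × Multiplicative ℤ) ↔ Condensed G :=
  ⟨condensed_of_prod hB hD, condensed_prod⟩

end Pool.Agent.T9h94.CZ
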