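import Mathlib

/-!
# MP_f5330b_al: `G × ℤ` is condensed if and only if `G` is condensed (Spec, helper94)

Goal: for every (f.g.) group `G`, `Condensed (G × ℤ) ↔ Condensed G`; hence groups `G`, `H` with
`G × ℤ ^ k ≃ H × ℤ ^ k` (the classical elementarily equivalent non-isomorphic f.g. groups) are
condensed simultaneously.

Every piece below is a closed `Prop`; prove `theorem xxx : Sxxx` in your own file.

`ℤ` is `Multiplicative ℤ` everywhere. Write `M = G × ℤ`.
-/

set_option autoImplicit false

namespace Pool.Agent.T9h94.CZ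

/-- `X` generates `G`. -/
def Gen {α G : Type} [Group G] (X : α → G) : Prop := Function.Surjective (FreeGroup.lift X)

/-- `X'` satisfies the same words of `B` as `X`. -/
def Close {α G G' : Type} [Group G] [Group G'] (B : Set (FreeGroup α)) (X : α → G) (X' : α → G') :
    Prop :=
  ∀ w ∈ B, FreeGroup.lift X' w = 1 ↔ FreeGroup.lift X w = 1

/-- `X'` satisfies other relations than `X`. -/
def Differ {α G G' : Type} [Group G] [Group G'] (X : α → G) (X' : α → G') : Prop :=
  ∃ w, ¬ (FreeGroup.lift X' w = 1 ↔ FreeGroup.lift X w = 1)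

/-- `X` is an accumulation point of markings of the same group. -/
def Acc {α G : Type} [Group G] (X : α → G) : Prop :=
  ∀ B : Set (FreeGroup α), B.Finite → ∃ X' : α → G, Gen X' ∧ Close B X X' ∧ Differ X X'

/-- `g` (an automorphism of the abelianization) is compatible with the two markings. -/
def Match {α M : Type} [Group M] (Z Z' : α → M) (g : Abelianization M ≃* Abelianization M) : Prop :=
  ∀ w : FreeGroup α, g (Abelianization.of (FreeGroup.lift Z w)) =
    Abelianization.of (FreeGroup.lift Z' w)

/-- (A) All markings `Z'` close enough to `Z` are matched with `Z` by an automorphism of the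
abelianization.
Proof. Let `F = FreeGroup α`, `K = ker (lift Z)`. The image of `K` in `Abelianization F` (a f.g.
abelian group: Noetherian ℤ-module) is f.g., so there is a finite `B ⊆ K` with
`K ≤ closure B ⊔ commutator F`. If `Z'` kills `B` then `of ∘ lift Z' : F →* Abelianization M` kills
`closure B` and the commutators, so it kills `K`; hence it factors through `lift Z` (surjective) and
through the abelianization: `g₀ : Abelianization M →* Abelianization M` with
`g₀ (of (Z w)) = of (Z' w)`. It is surjective (`Z'` generates), hence injective: a surjective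
endomorphism of a Noetherian ℤ-module (`Additive (Abelianization M)`, f.g.) is injective
(`IsNoetherian.injective_of_surjective_endomorphism`). -/
def SMatch : Prop :=
  ∀ (α M : Type) [Finite α] [Group M] (Z : α → M), Gen Z →
    ∃ B : Set (FreeGroup α), B.Finite ∧ ∀ Z' : α → M, Gen Z' → Close B Z Z' →
      ∃ g : Abelianization M ≃* Abelianization M, Match Z Z' g

/-- (B) One can moreover take `g` trivial modulo `N` (on characters with values in `ZMod N`).
Proof from (A). Let `E = Abelianization M →* Multiplicative (ZMod N)`, a finite type (characters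
are determined by the values at the generators). For `g` let `ρ g : Equiv.Perm E`,
`χ ↦ χ ∘ g⁻¹`, a homomorphism of groups `MulAut (Abelianization M) →* Equiv.Perm E`.
Say that `τ : Equiv.Perm E` is realised if for every finite `B` there are `Z'` and `g` with
`Gen Z'`, `Close B Z Z'`, `Differ Z Z'`, `Match Z Z' g`, `ρ g = τ`.
(1) Some `τ` is realised: otherwise choose a bad `B τ` for each `τ` and apply `Acc Z` and (A) to
the union of the `B τ` and of the set of (A).
(2) Realised elements are closed under products: given `B`, take `Z', g'` for `τ'` and `B`. Choose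
words `V j` with `Z' j = V j (Z)` and `U j` with `Z j = U j (Z')`, and a word `w₁` with different
truth values at `Z` and `Z'`. Let `V* : FreeGroup α →* FreeGroup α` be `lift V`, so that
`lift Z' w = lift Z (V* w)`. Let `B''` consist of the `V* w`, `w ∈ B`, of `V* w₁`, and of the words
`x j ^ -1 * V* (U j)`, `j ∈ α` (they are `1` at `Z`). Take `Z'', g''` for `τ''` and `B''`, and put
`Z''' j = lift Z'' (V j)`, so `lift Z''' w = lift Z'' (V* w)`. Then `Close B Z Z'''`,
`Differ Z Z'''` (witness `w₁`: `Z'''` has the truth value of `Z'` at `w₁`), `Z''' ` generates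
(`Z'' j = lift Z''' (U j)`), and `Match Z Z''' (g'' ∘ g')`.
(3) If `τ` is realised so is `τ ^ k` for `k ≥ 1`, in particular `τ ^ orderOf τ = 1`. -/
def STriv : Prop :=
  ∀ (α M : Type) [Finite α] [Group M] (Z : α → M), Gen Z → Acc Z →
    ∀ (N : ℕ), 1 ≤ N → ∀ B : Set (FreeGroup α), B.Finite →
      ∃ (Z' : α → M) (g : Abelianization M ≃* Abelianization M), Gen Z' ∧ Close B Z Z' ∧
        Differ Z Z' ∧ Match Z Z' g ∧
        ∀ (χ : Abelianization M →* Multiplicative (ZMod N)) (x : Abelianization M), χ (g x) = χ x

/-- (C) Smith normal form of the centre in `Hom (G, ℤ)`: there are homomorphisms `χ i : G → ℤ`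
(`i < s`), which span all homomorphisms, and central elements `k i`, and integers `a i ≠ 0` for
`i ∈ I` with `χ j (k i) = a i` if `j = i` and `0` otherwise, and for every central `z`, `χ i z = 0`
for `i ∉ I`. (To simplify: `a i ≠ 0` for all `i`, e.g. `a i = 1`, `k i = 1` off `I`.)
Proof. `Hom (G, ℤ)` embeds into `Fin n → ℤ` (values at generators), so it is free of finite rank:
take a basis `ψ i`, `i < s`, and `π = (ψ i) : G → ℤ ^ s`. Apply `Submodule.smithNormalForm` to the
submodule `π (center G)` of `ℤ ^ s`: a basis `b` of `ℤ ^ s` and a basis `a i • b i` of the submodule;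
`χ i = b.coord i ∘ π`. The `ψ i` are integer combinations of the `χ i`, so the `χ i` span. -/
def SSmith : Prop :=
  ∀ (G : Type) [Group G] [Group.FG G], ∃ (s : ℕ) (χ : Fin s → (G →* Multiplicative ℤ))
    (I : Finset (Fin s)) (a : Fin s → ℤ) (k : Fin s → G),
    (∀ f : G →* Multiplicative ℤ, ∃ y : Fin s → ℤ, ∀ x : G,
      Multiplicative.toAdd (f x) = ∑ i, y i * Multiplicative.toAdd (χ i x)) ∧
    (∀ i, a i ≠ 0) ∧
    (∀ i, k i ∈ Subgroup.center G) ∧
    (∀ i ∈ I, ∀ j, Multiplicative.toAdd (χ j (k i)) = if j = i then a i else 0) ∧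
    (∀ z ∈ Subgroup.center G, ∀ i, i ∉ I → Multiplicative.toAdd (χ i z) = 0)

/-- (D) For f.g. `G` there is `N ≥ 1` such that for every homomorphism `f : G × ℤ → ℤ` and every
central `v` with `f v = 1`: if `f (1, t) ≡ 1 mod N` then `f (φ (1, t)) = 1` for some automorphism
`φ` of `G × ℤ`.
Proof from (C). `N = ∏ |a i|`. Let `u = (1, t)`, `a₀ = f u = 1 mod N`, `f (x, 1) = ∑ y i χ i x`,
`v = (z, t ^ c)`: `a₀ c + ∑_{i ∈ I} y i χ i z = 1`. Let `y = gcd (y i : i ∈ I)`.
Then `gcd (a₀, y) = 1`. If `y = 0` then `a₀ = 1` or `-1`: `φ = id` or `φ (x, t ^ n) = (x, t ^ -n)`.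
Otherwise `y i = y q i` and `∑_I c i q i = 1`. Put `k = ∏_I k i ^ (c i N / a i)` (central in `G`) and
`q = ∑_I q i χ i : G → ℤ`; `q k = N`, and `f (k, 1) = N y`. As `gcd (a₀, N y) = 1` there are `A`, `g`
with `A a₀ + g N y = 1`; so `A = 1 - N E` for an integer `E` (because `a₀ ≡ 1 mod N`). Put
`β = - N y E`, `δ = a₀ E`. Then `φ (x, t ^ n) = (x k ^ (g n + δ q x), t ^ (A n + β q x))` is an
automorphism: its matrix has determinant `1`; inverse
`ψ (x, t ^ n) = (x k ^ (- g n + E' q x), t ^ ((1 + N δ) n - β q x))` with `E' = (A - 1) / N = - E`.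
(Determinant `A (1 + N δ) - N β g = A + N (A δ - β g) = A + N E (A a₀ + N y g) = A + N E = 1`.)
And `φ u = (k ^ g, t ^ A)`, `f (φ u) = g N y + A a₀ = 1`. -/
def SArith : Prop :=
  ∀ (G : Type) [Group G] [Group.FG G], ∃ N : ℕ, 1 ≤ N ∧
    ∀ (f : G × Multiplicative ℤ →* Multiplicative ℤ) (v : G × Multiplicative ℤ),
      v ∈ Subgroup.center (G × Multiplicative ℤ) → f v = Multiplicative.ofAdd 1 →
      (N : ℤ) ∣ Multiplicative.toAdd (f (1, Multiplicative.ofAdd 1)) - 1 →
      ∃ φ : G × Multiplicative ℤ ≃* G × Multiplicative ℤ,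
        f (φ (1, Multiplicative.ofAdd 1)) = Multiplicative.ofAdd 1

end Pool.Agent.T9h94.CZ
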